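import Mathlib

namespace Pool.Agent.W718.Tri

/-- Triangle wave of period `M` and height `M / 2`. -/
def tri (M C : ℤ) : ℤ := min (C % M) (M - C % M)

theorem tri_nonneg {M : ℤ} (hM : 0 < M) (C : ℤ) : 0 ≤ tri M C := by
  unfold tri
  have h1 := Int.emod_nonneg C hM.ne'
  have h2 := Int.emod_lt_of_pos C hM
  omega

theorem two_tri_le {M : ℤ} (hM : 0 < M) (C : ℤ) : 2 * tri M C ≤ M := by
  unfold tri
  have h1 := Int.emod_nonneg C hM.ne'
  have h2 := Int.emod_lt_of_pos C hM
  omega

theorem tri_add_mul (M C k : ℤ) : tri M (C + M * k) = tri M C := by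
  unfold tri
  rw [Int.add_mul_emod_self_left]

theorem tri_le_of {M : ℤ} (hM : 0 < M) (C k : ℤ) : tri M C ≤ |C - M * k| := by
  have h := tri_add_mul M (C - M * k) k
  rw [sub_add_cancel] at h
  rw [h]
  set D := C - M * k with hD
  unfold tri
  have h1 := Int.emod_nonneg D hM.ne'
  have h2 := Int.emod_lt_of_pos D hM
  have h3 := Int.emod_add_mul_ediv D M
  rcases le_or_gt 0 D with h | h
  · rw [abs_of_nonneg h]
    have : D % M ≤ D := by
      have : 0 ≤ M * (D / M) := mul_nonneg hM.le (Int.ediv_nonneg h hM.le)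
      omega
    omega
  · rw [abs_of_neg h]
    have h4 : D / M ≤ -1 := by
      have := Int.ediv_neg_of_neg_of_pos h hM
      omega
    have : M * (D / M) ≤ -M := by nlinarith
    omega

theorem exists_tri {M : ℤ} (hM : 0 < M) (C : ℤ) : ∃ k, tri M C = |C - M * k| := by
  unfold tri
  have h1 := Int.emod_nonneg C hM.ne'
  have h2 := Int.emod_lt_of_pos C hM
  have h3 := Int.emod_add_mul_ediv C M
  rcases le_total (C % M) (M - C % M) with h | h
  · refine ⟨C / M, ?_⟩
    rw [min_eq_left h]
    have : C - M * (C / M) = C % M := by omega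
    rw [this, abs_of_nonneg h1]
  · refine ⟨C / M + 1, ?_⟩
    rw [min_eq_right h]
    have : C - M * (C / M + 1) = C % M - M := by linarith
    rw [this, abs_of_neg (by omega)]
    ring

theorem tri_lip_le {M : ℤ} (hM : 0 < M) (C D : ℤ) : tri M D - tri M C ≤ |D - C| := by
  obtain ⟨k, hk⟩ := exists_tri hM C
  have h := tri_le_of hM D k
  have : |D - M * k| ≤ |D - C| + |C - M * k| := by
    have := abs_add_le (D - C) (C - M * k)
    simpa using this
  linarith

theorem tri_lip {M : ℤ} (hM : 0 < M) (C D : ℤ) : |tri M D - tri M C| ≤ |D - C| := by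
  rw [abs_le]
  have h1 := tri_lip_le hM C D
  have h2 := tri_lip_le hM D C
  rw [abs_sub_comm] at h2
  constructor <;> linarith

/-- Detection: with period `4 q` and a displacement of size at most half the period, one of
the two phases sees at least half the displacement. -/
theorem tri_detect {q : ℤ} (hq : 0 < q) (C D : ℤ) (hD : 2 * |D| ≤ 4 * q) :
    |D| ≤ 2 * |tri (4 * q) (C + D) - tri (4 * q) C| ∨
      |D| ≤ 2 * |tri (4 * q) (C + q + D) - tri (4 * q) (C + q)| := by
  -- reduce to `0 ≤ C < 4 q`
  have hM : 0 < 4 * q := by omega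
  have hC : C = C % (4 * q) + (4 * q) * (C / (4 * q)) := by
    have := Int.emod_add_mul_ediv C (4 * q); omega
  set r := C % (4 * q) with hr
  set k := C / (4 * q) with hk
  have hr0 : 0 ≤ r := Int.emod_nonneg C hM.ne'
  have hr1 : r < 4 * q := Int.emod_lt_of_pos C hM
  have e1 : tri (4 * q) (C + D) = tri (4 * q) (r + D) := by
    rw [show C + D = (r + D) + (4 * q) * k by linarith, tri_add_mul]
  have e2 : tri (4 * q) C = tri (4 * q) r := by
    rw [show C = r + (4 * q) * k by linarith, tri_add_mul]
  have e3 : tri (4 * q) (C + q + D) = tri (4 * q) (r + q + D) := by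
    rw [show C + q + D = (r + q + D) + (4 * q) * k by linarith, tri_add_mul]
  have e4 : tri (4 * q) (C + q) = tri (4 * q) (r + q) := by
    rw [show C + q = (r + q) + (4 * q) * k by linarith, tri_add_mul]
  rw [e1, e2, e3, e4]
  -- explicit values of `tri` on `[-2q, 8q)`
  have key : ∀ x : ℤ, -(2 * q) ≤ x → x < 8 * q →
      (x < 0 → tri (4 * q) x = -x) ∧ (0 ≤ x → x < 2 * q → tri (4 * q) x = x) ∧
      (2 * q ≤ x → x < 4 * q → tri (4 * q) x = 4 * q - x) ∧
      (4 * q ≤ x → x < 6 * q → tri (4 * q) x = x - 4 * q) ∧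
      (6 * q ≤ x → tri (4 * q) x = 8 * q - x) := by
    intro x hx1 hx2
    refine ⟨?_, ?_, ?_, ?_, ?_⟩
    · intro h
      have : x % (4 * q) = x + 4 * q := by
        rw [← Int.add_mul_emod_self_left x (4 * q) 1]
        rw [Int.emod_eq_of_lt] <;> omega
      unfold tri; rw [this]; omega
    · intro h h'
      have : x % (4 * q) = x := Int.emod_eq_of_lt (by omega) (by omega)
      unfold tri; rw [this]; omega
    · intro h h'
      have : x % (4 * q) = x := Int.emod_eq_of_lt (by omega) (by omega)
      unfold tri; rw [this]; omega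
    · intro h h'
      have : x % (4 * q) = x - 4 * q := by
        rw [← Int.add_mul_emod_self_left x (4 * q) (-1)]
        rw [Int.emod_eq_of_lt] <;> omega
      unfold tri; rw [this]; omega
    · intro h
      have : x % (4 * q) = x - 4 * q := by
        rw [← Int.add_mul_emod_self_left x (4 * q) (-1)]
        rw [Int.emod_eq_of_lt] <;> omega
      unfold tri; rw [this]; omega
  have hDa : -(2 * q) ≤ D ∧ D ≤ 2 * q := by
    have : |D| ≤ 2 * q := by omega
    exact abs_le.mp this
  obtain ⟨hD1, hD2⟩ := hDa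
  have k1 := key (r + D) (by omega) (by omega)
  have k2 := key r (by omega) (by omega)
  have k3 := key (r + q + D) (by omega) (by omega)
  have k4 := key (r + q) (by omega) (by omega)
  generalize tri (4 * q) (r + D) = t1 at *
  generalize tri (4 * q) r = t2 at *
  generalize tri (4 * q) (r + q + D) = t3 at *
  generalize tri (4 * q) (r + q) = t4 at *
  clear key e1 e2 e3 e4 hC hr hk hD
  obtain ⟨a1, a2, a3, a4, a5⟩ := k1
  obtain ⟨b1, b2, b3, b4, b5⟩ := k2
  obtain ⟨c1, c2, c3, c4, c5⟩ := k3
  obtain ⟨d1, d2, d3, d4, d5⟩ := k4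
  rcases abs_cases D with h | h <;> rcases abs_cases (t1 - t2) with h' | h' <;>
    rcases abs_cases (t3 - t4) with h'' | h'' <;> omega

end Pool.Agent.W718.Tri
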