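import Mathlib
import Pool.Agent.W718.Tri

namespace Pool.Agent.W718.Tri

/-- One scale of the coordinate functions. -/
def GG (h v w a b c : ℤ) : ℤ :=
  tri (2 * h) (a + v * h) *
    tri (4 * (h * h)) (c + v * h * b - 2 * h * ((a + v * h) / (2 * h)) * (b % (2 * h)) + w * (h * h))

section
variable {h : ℤ} (hh : 0 < h)
include hh

theorem hh2 : 0 < 2 * h := by omega

theorem hhM : 0 < 4 * (h * h) := by positivity

theorem GG_nonneg (v w a b c : ℤ) : 0 ≤ GG h v w a b c :=
  mul_nonneg (tri_nonneg (hh2 hh) _) (tri_nonneg (hhM hh) _)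

theorem tri1_le (x : ℤ) : tri (2 * h) x ≤ h := by
  have := two_tri_le (hh2 hh) x
  omega

theorem tri2_le (x : ℤ) : tri (4 * (h * h)) x ≤ 2 * (h * h) := by
  have := two_tri_le (hhM hh) x
  omega

theorem GG_le (v w a b c : ℤ) : GG h v w a b c ≤ 2 * (h * h * h) := by
  unfold GG
  have h1 := tri1_le hh (a + v * h)
  have h2 := tri2_le hh
    (c + v * h * b - 2 * h * ((a + v * h) / (2 * h)) * (b % (2 * h)) + w * (h * h))
  have h3 := tri_nonneg (hhM hh)
    (c + v * h * b - 2 * h * ((a + v * h) / (2 * h)) * (b % (2 * h)) + w * (h * h))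
  calc _ ≤ h * (2 * (h * h)) := mul_le_mul h1 h2 h3 hh.le
    _ = _ := by ring

omit hh in
theorem GG_per (v w a b c k : ℤ) : GG h v w a b (c + 4 * (h * h) * k) = GG h v w a b c := by
  unfold GG
  congr 1
  rw [show c + 4 * (h * h) * k + v * h * b - 2 * h * ((a + v * h) / (2 * h)) * (b % (2 * h))
      + w * (h * h) = (c + v * h * b - 2 * h * ((a + v * h) / (2 * h)) * (b % (2 * h))
      + w * (h * h)) + 4 * (h * h) * k by ring, tri_add_mul]

theorem GG_c (v w a b c c' : ℤ) :
    |GG h v w a b c' - GG h v w a b c| ≤ h * |c' - c| := by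
  unfold GG
  rw [← mul_sub, abs_mul]
  have h1 := tri1_le hh (a + v * h)
  have h0 := tri_nonneg (hh2 hh) (a + v * h)
  rw [abs_of_nonneg h0]
  refine mul_le_mul h1 ?_ (abs_nonneg _) hh.le
  refine (tri_lip (hhM hh) _ _).trans (le_of_eq ?_)
  congr 1
  ring

theorem GG_x (v w a b c : ℤ) :
    |GG h v w (a + 1) b c - GG h v w a b c| ≤ 2 * (h * h) := by
  unfold GG
  set a' := a + v * h with ha'
  have e1 : a + 1 + v * h = a' + 1 := by rw [ha']; ring
  rw [e1]
  have hm := hh2 hh
  have r0 := Int.emod_nonneg a' hm.ne'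
  have r1 := Int.emod_lt_of_pos a' hm
  have r2 := Int.emod_add_mul_ediv a' (2 * h)
  by_cases hw : a' % (2 * h) + 1 = 2 * h
  · -- wrap
    have q1 : a' + 1 = 2 * h * (a' / (2 * h) + 1) := by linarith
    have t1 : tri (2 * h) (a' + 1) = 0 := by
      unfold tri
      rw [q1, Int.mul_emod_right]
      omega
    have t2 : tri (2 * h) a' = 1 := by
      unfold tri
      omega
    rw [t1, t2, zero_mul, one_mul, zero_sub, abs_neg]
    rw [abs_of_nonneg (tri_nonneg (hhM hh) _)]
    exact tri2_le hh _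
  · have q1 : (a' + 1) / (2 * h) = a' / (2 * h) := by
      apply le_antisymm
      · apply Int.le_of_lt_add_one
        apply Int.ediv_lt_of_lt_mul hm
        have : a' % (2 * h) + 1 < 2 * h := by omega
        linarith
      · exact Int.ediv_le_ediv hm (by omega)
    rw [q1, ← sub_mul, abs_mul]
    have h1 : |tri (2 * h) (a' + 1) - tri (2 * h) a'| ≤ 1 := by
      have := tri_lip hm a' (a' + 1)
      simpa using this
    rw [abs_of_nonneg (tri_nonneg (hhM hh) _)]
    calc _ ≤ 1 * (2 * (h * h)) :=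
          mul_le_mul h1 (tri2_le hh _) (tri_nonneg (hhM hh) _) (by norm_num)
      _ = _ := by ring

theorem GG_y (v w a b c : ℤ) :
    |GG h v w a (b + 1) (c + a) - GG h v w a b c| ≤ 2 * (h * h) := by
  unfold GG
  set a' := a + v * h with ha'
  have hm := hh2 hh
  have r0 := Int.emod_nonneg a' hm.ne'
  have r1 := Int.emod_lt_of_pos a' hm
  have r2 := Int.emod_add_mul_ediv a' (2 * h)
  have s0 := Int.emod_nonneg b hm.ne'
  have s1 := Int.emod_lt_of_pos b hm
  have s2 := Int.emod_add_mul_ediv b (2 * h)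
  rw [← mul_sub, abs_mul, abs_of_nonneg (tri_nonneg hm _)]
  -- the two arguments differ by `a' % (2h)` modulo `4 h^2`
  obtain ⟨k, hk⟩ : ∃ k : ℤ, (b + 1) % (2 * h) = b % (2 * h) + 1 - 2 * h * k := by
    refine ⟨(b + 1) / (2 * h) - b / (2 * h), ?_⟩
    have := Int.emod_add_mul_ediv (b + 1) (2 * h)
    linarith
  have e : c + a + v * h * (b + 1) - 2 * h * (a' / (2 * h)) * ((b + 1) % (2 * h)) + w * (h * h)
      = (c + v * h * b - 2 * h * (a' / (2 * h)) * (b % (2 * h)) + w * (h * h) + a' % (2 * h))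
        + 4 * (h * h) * ((a' / (2 * h)) * k) := by
    rw [hk]
    have : a' % (2 * h) = a + v * h - 2 * h * (a' / (2 * h)) := by
      rw [← ha']; linarith
    rw [this]
    ring
  rw [e, tri_add_mul]
  have h1 := tri_lip (hhM hh) (c + v * h * b - 2 * h * (a' / (2 * h)) * (b % (2 * h)) + w * (h * h))
    (c + v * h * b - 2 * h * (a' / (2 * h)) * (b % (2 * h)) + w * (h * h) + a' % (2 * h))
  have h2 : |c + v * h * b - 2 * h * (a' / (2 * h)) * (b % (2 * h)) + w * (h * h) + a' % (2 * h)
      - (c + v * h * b - 2 * h * (a' / (2 * h)) * (b % (2 * h)) + w * (h * h))|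
      = a' % (2 * h) := by
    rw [add_sub_cancel_left, abs_of_nonneg r0]
  rw [h2] at h1
  have h3 := tri1_le hh a'
  calc _ ≤ h * (2 * h) := mul_le_mul h3 (h1.trans r1.le) (abs_nonneg _) hh.le
    _ = _ := by ring

theorem exists_v (a : ℤ) : ∃ v : ℤ, (v = 0 ∨ v = 1) ∧ h ≤ 2 * tri (2 * h) (a + v * h) := by
  have hm := hh2 hh
  have r0 := Int.emod_nonneg a hm.ne'
  have r1 := Int.emod_lt_of_pos a hm
  have r2 := Int.emod_add_mul_ediv a (2 * h)
  by_cases h0 : h ≤ 2 * tri (2 * h) a
  · exact ⟨0, Or.inl rfl, by simpa using h0⟩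
  · refine ⟨1, Or.inr rfl, ?_⟩
    rw [one_mul]
    push Not at h0
    unfold tri at h0 ⊢
    rcases lt_or_ge (a % (2 * h)) h with hlt | hge
    · have : (a + h) % (2 * h) = a % (2 * h) + h := by
        rw [show a + h = (a % (2 * h) + h) + 2 * h * (a / (2 * h)) by linarith,
          Int.add_mul_emod_self_left]
        exact Int.emod_eq_of_lt (by omega) (by omega)
      rw [this]
      omega
    · have : (a + h) % (2 * h) = a % (2 * h) - h := by
        rw [show a + h = (a % (2 * h) - h) + 2 * h * (a / (2 * h) + 1) by linarith,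
          Int.add_mul_emod_self_left]
        exact Int.emod_eq_of_lt (by omega) (by omega)
      rw [this]
      omega

theorem GG_detect (a b c D : ℤ) (h1 : |D| ≤ 2 * (h * h)) (h2 : h * h < 2 * |D|) :
    ∃ v w : ℤ, (v = 0 ∨ v = 1) ∧ (w = 0 ∨ w = 1) ∧
      h * h * h ≤ 8 * |GG h v w a b (c + D) - GG h v w a b c| := by
  obtain ⟨v, hv, hv2⟩ := exists_v hh a
  have hq : 0 < h * h := by positivity
  set C := c + v * h * b - 2 * h * ((a + v * h) / (2 * h)) * (b % (2 * h)) with hC
  have key : ∀ w : ℤ, |D| ≤ 2 * |tri (4 * (h * h)) (C + w * (h * h) + D)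
      - tri (4 * (h * h)) (C + w * (h * h))| →
      h * h * h ≤ 8 * |GG h v w a b (c + D) - GG h v w a b c| := by
    intro w hw
    unfold GG
    rw [← mul_sub, abs_mul, abs_of_nonneg (tri_nonneg (hh2 hh) _)]
    have e : c + D + v * h * b - 2 * h * ((a + v * h) / (2 * h)) * (b % (2 * h)) + w * (h * h)
        = C + w * (h * h) + D := by rw [hC]; ring
    rw [e]
    set X := |tri (4 * (h * h)) (C + w * (h * h) + D) - tri (4 * (h * h)) (C + w * (h * h))|
    have hX : h * h ≤ 4 * X := by linarith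
    have : h * (h * h) ≤ (2 * tri (2 * h) (a + v * h)) * (4 * X) :=
      mul_le_mul hv2 hX hq.le (by linarith)
    linarith
  rcases tri_detect hq C D (by linarith) with hd | hd
  · refine ⟨v, 0, hv, Or.inl rfl, key 0 ?_⟩
    simpa using hd
  · refine ⟨v, 1, hv, Or.inr rfl, key 1 ?_⟩
    simpa using hd

end

end Pool.Agent.W718.Tri
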