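import Mathlib
import Pool.Agent.W718.GG

namespace Pool.Agent.W718.Tri

open Finset

/-- A normalised term at scale `2 ^ (j + 8 i)`. -/
def term (j : ℕ) (v w a b c : ℤ) (i : ℕ) : ℚ :=
  128 ^ i * ((GG (2 ^ (j + 8 * i)) v w a b c : ℤ) : ℚ) / (2 ^ (j + 8 * i)) ^ 3

/-- The coordinate functions before rounding. -/
def SS (I j : ℕ) (v w a b c : ℤ) : ℚ := ∑ i ∈ range I, term j v w a b c i

theorem sum_half (n : ℕ) : ∑ i ∈ range n, 2 * (1 / 2 : ℚ) ^ i ≤ 4 := by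
  have : ∀ n : ℕ, ∑ i ∈ range n, 2 * (1 / 2 : ℚ) ^ i = 4 - 4 * (1 / 2) ^ n := by
    intro n
    induction n with
    | zero => simp
    | succ n ih => rw [sum_range_succ, ih, pow_succ]; ring
  rw [this]
  have : (0 : ℚ) < (1 / 2) ^ n := by positivity
  linarith

theorem pow_split (j i : ℕ) : (2 : ℚ) ^ (j + 8 * i) = 2 ^ j * 128 ^ i * 2 ^ i := by
  rw [pow_add, pow_mul, mul_assoc, ← mul_pow]
  norm_num

theorem term_diff (j : ℕ) (v w a b c a' b' c' : ℤ) (i : ℕ) (B : ℤ)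
    (hB : |GG (2 ^ (j + 8 * i)) v w a' b' c' - GG (2 ^ (j + 8 * i)) v w a b c| ≤ B) :
    |term j v w a' b' c' i - term j v w a b c i| ≤
      128 ^ i * (B : ℚ) / (2 ^ (j + 8 * i)) ^ 3 := by
  unfold term
  rw [← sub_div, ← mul_sub, abs_div, abs_mul]
  have h1 : |(128 : ℚ) ^ i| = 128 ^ i := abs_of_pos (by positivity)
  have h2 : |((2 : ℚ) ^ (j + 8 * i)) ^ 3| = (2 ^ (j + 8 * i)) ^ 3 := abs_of_pos (by positivity)
  rw [h1, h2]
  have h3 : |((GG (2 ^ (j + 8 * i)) v w a' b' c' : ℤ) : ℚ)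
      - ((GG (2 ^ (j + 8 * i)) v w a b c : ℤ) : ℚ)| ≤ (B : ℚ) := by
    exact_mod_cast hB
  gcongr

theorem SS_step (I j : ℕ) (v w a b c a' b' c' : ℤ)
    (hB : ∀ h : ℤ, 0 < h → |GG h v w a' b' c' - GG h v w a b c| ≤ 2 * (h * h)) :
    |SS I j v w a' b' c' - SS I j v w a b c| ≤ 4 := by
  unfold SS
  rw [← sum_sub_distrib]
  refine (abs_sum_le_sum_abs _ _).trans ((sum_le_sum ?_).trans (sum_half I))
  intro i _
  have h0 : (0 : ℤ) < 2 ^ (j + 8 * i) := by positivity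
  refine (term_diff j v w a b c a' b' c' i _ (hB _ h0)).trans ?_
  have e : (128 : ℚ) ^ i * ((2 * (2 ^ (j + 8 * i) * 2 ^ (j + 8 * i)) : ℤ) : ℚ)
      / (2 ^ (j + 8 * i)) ^ 3 = 2 * (1 / 2) ^ i / 2 ^ j := by
    push_cast
    rw [pow_split, one_div, inv_pow]
    field_simp
  rw [e]
  have : (1 : ℚ) ≤ 2 ^ j := one_le_pow₀ (by norm_num)
  exact div_le_self (by positivity) this

theorem sum_low (d : ℕ → ℚ) (i : ℕ) (h : ∀ k < i, |d k| ≤ 2 * 128 ^ k) :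
    |∑ k ∈ range i, d k| ≤ 2 * 128 ^ i / 127 := by
  refine (abs_sum_le_sum_abs _ _).trans ?_
  have : ∑ k ∈ range i, |d k| ≤ ∑ k ∈ range i, 2 * (128 : ℚ) ^ k :=
    sum_le_sum fun k hk => h k (mem_range.mp hk)
  refine this.trans ?_
  have : ∀ n : ℕ, ∑ k ∈ range n, 2 * (128 : ℚ) ^ k = 2 * 128 ^ n / 127 - 2 / 127 := by
    intro n
    induction n with
    | zero => simp
    | succ n ih => rw [sum_range_succ, ih, pow_succ]; ring
  rw [this]
  linarith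

theorem sum_high (d : ℕ → ℚ) (i n : ℕ)
    (h : ∀ k, |d (i + 1 + k)| ≤ 2 * 128 ^ i * (1 / 512) ^ (k + 1)) :
    |∑ k ∈ range n, d (i + 1 + k)| ≤ 2 * 128 ^ i / 511 := by
  refine (abs_sum_le_sum_abs _ _).trans ?_
  have h1 : ∑ k ∈ range n, |d (i + 1 + k)| ≤ ∑ k ∈ range n, 2 * (128 : ℚ) ^ i * (1 / 512) ^ (k + 1) :=
    sum_le_sum fun k _ => h k
  refine h1.trans ?_
  have : ∀ n : ℕ, ∑ k ∈ range n, 2 * (128 : ℚ) ^ i * (1 / 512) ^ (k + 1)
      = 2 * 128 ^ i / 511 * (1 - (1 / 512) ^ n) := by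
    intro n
    induction n with
    | zero => simp
    | succ n ih => rw [sum_range_succ, ih, pow_succ]; ring
  rw [this]
  have h2 : (0 : ℚ) < (1 / 512) ^ n := by positivity
  have h3 : (0 : ℚ) < 2 * 128 ^ i / 511 := by positivity
  nlinarith

theorem sum_sep (d : ℕ → ℚ) (i I : ℕ) (hi : i < I) (h1 : ∀ k < i, |d k| ≤ 2 * 128 ^ k)
    (h2 : (128 : ℚ) ^ i / 8 ≤ |d i|)
    (h3 : ∀ k, |d (i + 1 + k)| ≤ 2 * 128 ^ i * (1 / 512) ^ (k + 1)) :
    1 / 10 < |∑ k ∈ range I, d k| := by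
  obtain ⟨n, rfl⟩ : ∃ n, I = i + 1 + n := ⟨I - (i + 1), by omega⟩
  rw [sum_range_add, sum_range_succ]
  have a1 := sum_low d i h1
  have a3 := sum_high d i n h3
  have hp : (1 : ℚ) ≤ 128 ^ i := one_le_pow₀ (by norm_num)
  set A := ∑ k ∈ range i, d k
  set B := ∑ k ∈ range n, d (i + 1 + k)
  have : |d i| ≤ |A + d i + B| + |A| + |B| := by
    have e : d i = (A + d i + B) - A - B := by ring
    calc |d i| = |(A + d i + B) - A - B| := by rw [← e]
      _ ≤ |(A + d i + B) - A| + |B| := abs_sub _ _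
      _ ≤ |A + d i + B| + |A| + |B| := by
        have := abs_sub (A + d i + B) A
        linarith
  have : |A + d i + B| ≥ 128 ^ i / 8 - 2 * 128 ^ i / 127 - 2 * 128 ^ i / 511 := by linarith
  have : (128 : ℚ) ^ i / 8 - 2 * 128 ^ i / 127 - 2 * 128 ^ i / 511 > 1 / 10 := by
    nlinarith
  linarith

theorem exists_scale (I : ℕ) (D : ℤ) (hD : D ≠ 0) (hD2 : 2 * |D| ≤ 4 ^ (8 * I)) :
    ∃ t : ℕ, t < 8 * I ∧ |D| ≤ 2 * (2 ^ t * 2 ^ t) ∧ 2 ^ t * 2 ^ t < 2 * |D| := by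
  have hD0 : 1 ≤ |D| := Int.one_le_abs hD
  have hex : ∃ t : ℕ, |D| ≤ 2 * (2 ^ t * 2 ^ t) := by
    refine ⟨8 * I, ?_⟩
    rw [← mul_pow]
    norm_num
    have : (0 : ℤ) < 4 ^ (8 * I) := by positivity
    linarith
  classical
  refine ⟨Nat.find hex, ?_, Nat.find_spec hex, ?_⟩
  · have hI : 0 < 8 * I := by
      by_contra h
      have : 8 * I = 0 := by omega
      rw [this] at hD2
      norm_num at hD2
      omega
    have : Nat.find hex ≤ 8 * I - 1 := by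
      apply Nat.find_min'
      obtain ⟨m, hm⟩ : ∃ m, 8 * I = m + 1 := ⟨8 * I - 1, by omega⟩
      rw [hm] at hD2 ⊢
      rw [Nat.add_sub_cancel, ← mul_pow]
      norm_num
      rw [pow_succ] at hD2
      linarith
    omega
  · rcases Nat.eq_zero_or_pos (Nat.find hex) with h0 | h0
    · rw [h0]; norm_num; linarith
    · have := Nat.find_min hex (m := Nat.find hex - 1) (by omega)
      push Not at this
      obtain ⟨m, hm⟩ : ∃ m, Nat.find hex = m + 1 := ⟨Nat.find hex - 1, by omega⟩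
      rw [hm] at this ⊢
      rw [Nat.add_sub_cancel] at this
      have e : (2 : ℤ) ^ (m + 1) * 2 ^ (m + 1) = 4 * (2 ^ m * 2 ^ m) := by ring
      rw [e]
      linarith

theorem SS_sep (I : ℕ) (a b c D : ℤ) (hD : D ≠ 0) (hD2 : 2 * |D| ≤ 4 ^ (8 * I)) :
    ∃ (j : ℕ) (v w : ℤ), j < 8 ∧ (v = 0 ∨ v = 1) ∧ (w = 0 ∨ w = 1) ∧
      1 / 10 < |SS I j v w a b (c + D) - SS I j v w a b c| := by
  obtain ⟨t, ht, ht1, ht2⟩ := exists_scale I D hD hD2
  have hh : (0 : ℤ) < 2 ^ t := by positivity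
  obtain ⟨v, w, hv, hw, hvw⟩ := GG_detect hh a b c D ht1 ht2
  refine ⟨t % 8, v, w, Nat.mod_lt _ (by norm_num), hv, hw, ?_⟩
  have hti : t % 8 + 8 * (t / 8) = t := Nat.mod_add_div t 8
  set j := t % 8
  set i := t / 8
  have hi : i < I := by omega
  unfold SS
  rw [← sum_sub_distrib]
  refine sum_sep _ i I hi ?_ ?_ ?_
  · intro k hk
    have h0 : (0 : ℤ) < 2 ^ (j + 8 * k) := by positivity
    have g1 := GG_nonneg h0 v w a b c
    have g2 := GG_nonneg h0 v w a b (c + D)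
    have g3 := GG_le h0 v w a b c
    have g4 := GG_le h0 v w a b (c + D)
    refine (term_diff j v w a b c a b (c + D) k
      (2 * (2 ^ (j + 8 * k) * 2 ^ (j + 8 * k) * 2 ^ (j + 8 * k)))
      (abs_le.mpr ⟨by linarith, by linarith⟩)).trans ?_
    · push_cast
      rw [div_le_iff₀ (by positivity)]
      apply le_of_eq
      ring
  · show _ ≤ |term j v w a b (c + D) i - term j v w a b c i|
    unfold term
    rw [hti, ← sub_div, ← mul_sub, abs_div, abs_mul]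
    have h1 : |(128 : ℚ) ^ i| = 128 ^ i := abs_of_pos (by positivity)
    have h2 : |((2 : ℚ) ^ t) ^ 3| = (2 ^ t) ^ 3 := abs_of_pos (by positivity)
    rw [h1, h2, div_le_div_iff₀ (by positivity) (by positivity)]
    have h3 : ((2 : ℚ) ^ t) ^ 3 ≤ 8 * |((GG (2 ^ t) v w a b (c + D) : ℤ) : ℚ)
      - ((GG (2 ^ t) v w a b c : ℤ) : ℚ)| := by
      have : (2 : ℤ) ^ t * 2 ^ t * 2 ^ t = (2 ^ t) ^ 3 := by ring
      rw [this] at hvw
      exact_mod_cast hvw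
    have h4 : (0 : ℚ) < 128 ^ i := by positivity
    calc (128 : ℚ) ^ i * (2 ^ t) ^ 3 ≤ 128 ^ i * (8 * |((GG (2 ^ t) v w a b (c + D) : ℤ) : ℚ)
      - ((GG (2 ^ t) v w a b c : ℤ) : ℚ)|) := by gcongr
      _ = _ := by ring
  · intro k
    have h0 : (0 : ℤ) < 2 ^ (j + 8 * (i + 1 + k)) := by positivity
    have g := GG_c h0 v w a b c (c + D)
    rw [add_sub_cancel_left] at g
    have g' : |GG (2 ^ (j + 8 * (i + 1 + k))) v w a b (c + D)
        - GG (2 ^ (j + 8 * (i + 1 + k))) v w a b c| ≤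
        2 ^ (j + 8 * (i + 1 + k)) * (2 * (2 ^ t * 2 ^ t)) :=
      g.trans (mul_le_mul_of_nonneg_left ht1 h0.le)
    refine (term_diff j v w a b c a b (c + D) (i + 1 + k) _ g').trans ?_
    have e : (2 : ℚ) ^ (j + 8 * (i + 1 + k)) = 2 ^ t * 256 ^ (k + 1) := by
      rw [show (256 : ℚ) = 2 ^ 8 by norm_num, ← pow_mul, ← pow_add]
      congr 1
      omega
    push_cast
    rw [e]
    have e2 : (128 : ℚ) ^ (i + 1 + k) = 128 ^ i * 128 ^ (k + 1) := by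
      rw [← pow_add]; congr 1; omega
    rw [e2]
    have e3 : (128 : ℚ) ^ i * 128 ^ (k + 1) * (2 ^ t * 256 ^ (k + 1) * (2 * (2 ^ t * 2 ^ t)))
        / (2 ^ t * 256 ^ (k + 1)) ^ 3 = 2 * 128 ^ i * (128 / 256 ^ 2) ^ (k + 1) := by
      rw [div_pow, ← pow_mul, mul_comm 2 (k + 1), pow_mul]
      field_simp
    rw [e3]
    norm_num

end Pool.Agent.W718.Tri
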