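import Mathlib
import Pool.Agent.W718.SS

namespace Pool.Agent.W718.Tri

open Finset

theorem SS_per (I j : ℕ) (hj : j < 8) (v w a b c k : ℤ) :
    SS I j v w a b (c + 4 ^ (8 * I) * k) = SS I j v w a b c := by
  unfold SS
  refine sum_congr rfl fun i hi => ?_
  have hi' := mem_range.mp hi
  unfold term
  obtain ⟨m, hm⟩ : ∃ m, 8 * I = (j + 8 * i + 1) + m := ⟨8 * I - (j + 8 * i + 1), by omega⟩
  have e : (4 : ℤ) ^ (8 * I) * k
      = 4 * (2 ^ (j + 8 * i) * 2 ^ (j + 8 * i)) * (4 ^ m * k) := by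
    rw [hm, pow_add, pow_succ, ← mul_pow]
    norm_num
    ring
  rw [e, GG_per]

/-- The index set of the coordinates. -/
abbrev Idx := Bool ⊕ (Fin 8 × Bool × Bool)

/-- `0` or `1`. -/
def b01 (v : Bool) : ℤ := if v then 1 else 0

/-- The map of the Heisenberg group into the lattice of dimension `34`. -/
def FF (I : ℕ) (a b c : ℤ) : Idx → ℤ
  | Sum.inl false => a
  | Sum.inl true => b
  | Sum.inr (j, v, w) => ⌊10 * SS I j (b01 v) (b01 w) a b c⌋

theorem FF_per (I : ℕ) (a b c k : ℤ) : FF I a b (c + 4 ^ (8 * I) * k) = FF I a b c := by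
  funext x
  rcases x with (_ | _) | ⟨j, v, w⟩
  · rfl
  · rfl
  · show ⌊_⌋ = ⌊_⌋
    rw [SS_per I j j.isLt]

theorem floor_diff (x y : ℚ) (h : |x - y| ≤ 4) : |⌊10 * x⌋ - ⌊10 * y⌋| ≤ 41 := by
  rw [abs_le] at h ⊢
  have h1 := Int.floor_le (10 * x)
  have h2 := Int.lt_floor_add_one (10 * x)
  have h3 := Int.floor_le (10 * y)
  have h4 := Int.lt_floor_add_one (10 * y)
  constructor
  · have : (-41 : ℚ) ≤ (⌊10 * x⌋ : ℚ) - ⌊10 * y⌋ := by linarith [h.1]
    exact_mod_cast this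
  · have : (⌊10 * x⌋ : ℚ) - ⌊10 * y⌋ ≤ 41 := by linarith [h.2]
    exact_mod_cast this

theorem FF_x (I : ℕ) (a b c : ℤ) (x : Idx) : |FF I (a + 1) b c x - FF I a b c x| ≤ 41 := by
  rcases x with (_ | _) | ⟨j, v, w⟩
  · show |a + 1 - a| ≤ 41
    simp
  · show |b - b| ≤ 41
    simp
  · exact floor_diff _ _ (SS_step I j _ _ a b c (a + 1) b c fun h hh => GG_x hh _ _ a b c)

theorem FF_y (I : ℕ) (a b c : ℤ) (x : Idx) : |FF I a (b + 1) (c + a) x - FF I a b c x| ≤ 41 := by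
  rcases x with (_ | _) | ⟨j, v, w⟩
  · show |a - a| ≤ 41
    simp
  · show |b + 1 - b| ≤ 41
    simp
  · exact floor_diff _ _ (SS_step I j _ _ a b c a (b + 1) (c + a) fun h hh => GG_y hh _ _ a b c)

theorem FF_inj (I : ℕ) (a b c a' b' c' : ℤ) (h : FF I a b c = FF I a' b' c') :
    a = a' ∧ b = b' ∧ (4 ^ (8 * I) : ℤ) ∣ c' - c := by
  have ha : a = a' := congrFun h (Sum.inl false)
  have hb : b = b' := congrFun h (Sum.inl true)
  subst ha
  subst hb
  refine ⟨rfl, rfl, ?_⟩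
  have hN : (0 : ℤ) < 4 ^ (8 * I) := by positivity
  set N : ℤ := 4 ^ (8 * I) with hNdef
  -- representative of `c' - c` in `(-N/2, N/2]`
  obtain ⟨k, D, hD, hD2⟩ : ∃ k D : ℤ, c' - c = D + N * k ∧ 2 * |D| ≤ N := by
    have r0 := Int.emod_nonneg (c' - c) hN.ne'
    have r1 := Int.emod_lt_of_pos (c' - c) hN
    have r2 := Int.emod_add_mul_ediv (c' - c) N
    by_cases hle : 2 * ((c' - c) % N) ≤ N
    · refine ⟨(c' - c) / N, (c' - c) % N, r2.symm, ?_⟩
      rw [abs_of_nonneg r0]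
      exact hle
    · refine ⟨(c' - c) / N + 1, (c' - c) % N - N, by linarith, ?_⟩
      rw [abs_of_neg (by linarith)]
      linarith
  by_cases hD0 : D = 0
  · rw [hD0, zero_add] at hD
    exact ⟨k, hD⟩
  exfalso
  obtain ⟨j, v, w, hj, hv, hw, hS⟩ := SS_sep I a b c D hD0 hD2
  have e : SS I j v w a b c' = SS I j v w a b (c + D) := by
    rw [show c' = (c + D) + N * k by linarith, hNdef, SS_per I j hj]
  rw [← e] at hS
  obtain ⟨v', rfl⟩ : ∃ v' : Bool, v = b01 v' := by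
    rcases hv with rfl | rfl
    · exact ⟨false, rfl⟩
    · exact ⟨true, rfl⟩
  obtain ⟨w', rfl⟩ : ∃ w' : Bool, w = b01 w' := by
    rcases hw with rfl | rfl
    · exact ⟨false, rfl⟩
    · exact ⟨true, rfl⟩
  have hfl : ⌊10 * SS I j (b01 v') (b01 w') a b c⌋ = ⌊10 * SS I j (b01 v') (b01 w') a b c'⌋ :=
    congrFun h (Sum.inr (⟨j, hj⟩, v', w'))
  have := Int.abs_sub_lt_one_of_floor_eq_floor hfl
  rw [← mul_sub, abs_mul, abs_sub_comm] at this
  norm_num at this
  linarith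

theorem card_idx : Fintype.card Idx = 34 := by
  simp [Idx]

/-- Quotients of the Heisenberg group by arbitrarily deep central subgroups act on a subset of
the lattice of dimension `34` with uniformly bounded displacement. -/
theorem exists_embed (n : ℕ) : ∃ N : ℕ, n < N ∧ ∃ f : ℤ → ℤ → ℤ → (Fin 34 → ℤ),
    (∀ a b c k, f a b (c + N * k) = f a b c) ∧
    (∀ a b c a' b' c', f a b c = f a' b' c' → a = a' ∧ b = b' ∧ (N : ℤ) ∣ c' - c) ∧
    (∀ a b c i, |f (a + 1) b c i - f a b c i| ≤ 41) ∧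
    (∀ a b c i, |f a (b + 1) (c + a) i - f a b c i| ≤ 41) := by
  have e : Fin 34 ≃ Idx := (Fintype.equivFinOfCardEq card_idx).symm
  refine ⟨4 ^ (8 * n), ?_, fun a b c i => FF n a b c (e i), ?_, ?_, ?_, ?_⟩
  · calc n ≤ 8 * n := by omega
      _ < 4 ^ (8 * n) := Nat.lt_pow_self (by norm_num)
  · intro a b c k
    funext i
    push_cast
    rw [FF_per]
  · intro a b c a' b' c' h
    have h' : FF n a b c = FF n a' b' c' := by
      funext x
      have := congrFun h (e.symm x)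
      simpa using this
    have := FF_inj n a b c a' b' c' h'
    push_cast
    exact this
  · intro a b c i
    exact FF_x n a b c (e i)
  · intro a b c i
    exact FF_y n a b c (e i)

end Pool.Agent.W718.Tri
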