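import Mathlib

namespace Pool.Agent.W718.Heis

set_option linter.unusedSimpArgs false

/-- Upper unitriangular matrices. -/
def IsUnitri (A : Matrix.SpecialLinearGroup (Fin 3) ℤ) : Prop :=
  (∀ i, A i i = 1) ∧ ∀ i j, j < i → A i j = 0

theorem isUnitri_one : IsUnitri 1 := by
  refine ⟨fun i => by simp, fun i j h => ?_⟩
  simp [h.ne']

theorem isUnitri_mul {A B : Matrix.SpecialLinearGroup (Fin 3) ℤ} (hA : IsUnitri A)
    (hB : IsUnitri B) : IsUnitri (A * B) := by
  obtain ⟨hA1, hA2⟩ := hA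
  obtain ⟨hB1, hB2⟩ := hB
  have a00 := hA1 0
  have a11 := hA1 1
  have a22 := hA1 2
  have a10 := hA2 1 0 (by decide)
  have a20 := hA2 2 0 (by decide)
  have a21 := hA2 2 1 (by decide)
  have b00 := hB1 0
  have b11 := hB1 1
  have b22 := hB1 2
  have b10 := hB2 1 0 (by decide)
  have b20 := hB2 2 0 (by decide)
  have b21 := hB2 2 1 (by decide)
  constructor
  · intro i
    fin_cases i <;>
      simp [Matrix.mul_apply, Fin.sum_univ_three, a00, a11, a22, a10, a20, a21, b00, b11, b22,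
        b10, b20, b21]
  · intro i j hij
    fin_cases i <;> fin_cases j <;> first
      | exact absurd hij (by decide)
      | simp [Matrix.mul_apply, Fin.sum_univ_three, a00, a11, a22, a10, a20, a21, b00, b11,
          b22, b10, b20, b21]

theorem isUnitri_inv {A : Matrix.SpecialLinearGroup (Fin 3) ℤ} (hA : IsUnitri A) :
    IsUnitri A⁻¹ := by
  obtain ⟨hA1, hA2⟩ := hA
  have a00 := hA1 0
  have a11 := hA1 1
  have a22 := hA1 2
  have a10 := hA2 1 0 (by decide)
  have a20 := hA2 2 0 (by decide)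
  have a21 := hA2 2 1 (by decide)
  constructor
  · intro i
    rw [Matrix.SpecialLinearGroup.coe_inv, Matrix.adjugate_fin_three]
    fin_cases i <;> simp [a00, a11, a22, a10, a20, a21]
  · intro i j hij
    rw [Matrix.SpecialLinearGroup.coe_inv, Matrix.adjugate_fin_three]
    fin_cases i <;> fin_cases j <;> first
      | exact absurd hij (by decide)
      | simp [a00, a11, a22, a10, a20, a21]

/-- The discrete Heisenberg group: integer `3 × 3` upper unitriangular matrices. -/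
def Heisenberg : Subgroup (Matrix.SpecialLinearGroup (Fin 3) ℤ) where
  carrier := {A | IsUnitri A}
  one_mem' := isUnitri_one
  mul_mem' := isUnitri_mul
  inv_mem' := isUnitri_inv

theorem mul01 (g h : Heisenberg) : (g * h).1 0 1 = g.1 0 1 + h.1 0 1 := by
  have a00 := g.2.1 0
  have b11 := h.2.1 1
  have b21 := h.2.2 2 1 (by decide)
  show ((g.1 : Matrix (Fin 3) (Fin 3) ℤ) * (h.1 : Matrix (Fin 3) (Fin 3) ℤ)) 0 1 = _
  simp only [Matrix.mul_apply, Fin.sum_univ_three]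
  rw [a00, b11, b21]
  ring

theorem mul12 (g h : Heisenberg) : (g * h).1 1 2 = g.1 1 2 + h.1 1 2 := by
  have a11 := g.2.1 1
  have a10 := g.2.2 1 0 (by decide)
  have b22 := h.2.1 2
  show ((g.1 : Matrix (Fin 3) (Fin 3) ℤ) * (h.1 : Matrix (Fin 3) (Fin 3) ℤ)) 1 2 = _
  simp only [Matrix.mul_apply, Fin.sum_univ_three]
  rw [a11, b22, a10]
  ring

theorem mul02 (g h : Heisenberg) :
    (g * h).1 0 2 = g.1 0 2 + h.1 0 2 + g.1 0 1 * h.1 1 2 := by
  have a00 := g.2.1 0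
  have b22 := h.2.1 2
  show ((g.1 : Matrix (Fin 3) (Fin 3) ℤ) * (h.1 : Matrix (Fin 3) (Fin 3) ℤ)) 0 2 = _
  simp only [Matrix.mul_apply, Fin.sum_univ_three]
  rw [a00, b22]
  ring

theorem eq_one_iff (g : Heisenberg) (h01 : g.1 0 1 = 0) (h12 : g.1 1 2 = 0) (h02 : g.1 0 2 = 0) :
    g = 1 := by
  apply Subtype.ext
  apply Matrix.SpecialLinearGroup.ext
  intro i j
  have a00 := g.2.1 0
  have a11 := g.2.1 1
  have a22 := g.2.1 2
  have a10 := g.2.2 1 0 (by decide)
  have a20 := g.2.2 2 0 (by decide)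
  have a21 := g.2.2 2 1 (by decide)
  show g.1 i j = (1 : Matrix (Fin 3) (Fin 3) ℤ) i j
  fin_cases i <;> fin_cases j
  · exact a00
  · exact h01
  · exact h02
  · exact a10
  · exact a11
  · exact h12
  · exact a20
  · exact a21
  · exact a22

section

variable {G : Type*} [Group G] (X Y : G)

/-- The commutator used as the central generator. -/
def Z : G := X⁻¹ * Y⁻¹ * X * Y

variable {X Y}

theorem commute_X_Z (h1 : X * (Y⁻¹ * X * Y) = (Y⁻¹ * X * Y) * X) : Commute X (Z X Y) := by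
  have e : Z X Y = X⁻¹ * (Y⁻¹ * X * Y) := by unfold Z; group
  rw [e]
  exact (Commute.inv_right (Commute.refl X)).mul_right h1

theorem commute_Y_Z (h2 : Y * (X⁻¹ * Y * X) = (X⁻¹ * Y * X) * Y) : Commute Y (Z X Y) := by
  have e : Z X Y = (X⁻¹ * Y * X)⁻¹ * Y := by unfold Z; group
  rw [e]
  exact (Commute.inv_right (show Commute Y (X⁻¹ * Y * X) from h2)).mul_right (Commute.refl Y)

theorem XpowYpow (hX : Commute X (Z X Y)) (hY : Commute Y (Z X Y)) (a b : ℤ) :
    X ^ a * Y ^ b = Y ^ b * X ^ a * Z X Y ^ (a * b) := by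
  -- `Y⁻¹ X Y = X Z`
  have h1 : Y⁻¹ * X * Y = X * Z X Y := by unfold Z; group
  have h2 : Y⁻¹ * X ^ a * Y = X ^ a * Z X Y ^ a := by
    have := conj_zpow (a := Y⁻¹) (b := X) (i := a)
    rw [inv_inv] at this
    rw [← this, h1, hX.mul_zpow]
  -- `X^a Y X^{-a} = Y Z^a`
  have h3 : X ^ a * Y * (X ^ a)⁻¹ = Y * Z X Y ^ a := by
    have h4 : X ^ a * Y = Y * (X ^ a * Z X Y ^ a) := by
      rw [← h2]; group
    rw [h4]
    have hc : X ^ a * Z X Y ^ a = Z X Y ^ a * X ^ a :=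
      ((hX.zpow_zpow a a)).eq
    rw [hc]
    group
  have h5 : X ^ a * Y ^ b * (X ^ a)⁻¹ = Y ^ b * Z X Y ^ (a * b) := by
    rw [← conj_zpow, h3, (hY.zpow_right a).mul_zpow, zpow_mul]
  have h6 : X ^ a * Y ^ b = Y ^ b * Z X Y ^ (a * b) * X ^ a := by
    rw [← h5]; group
  rw [h6, mul_assoc, mul_assoc, ((hX.zpow_zpow a (a * b))).eq]

/-- The homomorphism from the Heisenberg group given by two elements that satisfy its
relations. -/
def rho (h1 : X * (Y⁻¹ * X * Y) = (Y⁻¹ * X * Y) * X)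
    (h2 : Y * (X⁻¹ * Y * X) = (X⁻¹ * Y * X) * Y) : Heisenberg →* G where
  toFun g := Y ^ (g.1 1 2) * X ^ (g.1 0 1) * Z X Y ^ (g.1 0 2)
  map_one' := by
    show Y ^ ((1 : Matrix (Fin 3) (Fin 3) ℤ) 1 2) * X ^ ((1 : Matrix (Fin 3) (Fin 3) ℤ) 0 1) *
      Z X Y ^ ((1 : Matrix (Fin 3) (Fin 3) ℤ) 0 2) = 1
    have e1 : (1 : Matrix (Fin 3) (Fin 3) ℤ) 1 2 = 0 := by decide
    have e2 : (1 : Matrix (Fin 3) (Fin 3) ℤ) 0 1 = 0 := by decide
    have e3 : (1 : Matrix (Fin 3) (Fin 3) ℤ) 0 2 = 0 := by decide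
    rw [e1, e2, e3]
    simp
  map_mul' g h := by
    rw [mul01, mul12, mul02]
    have hX := commute_X_Z h1
    have hY := commute_Y_Z h2
    generalize g.1 1 2 = b
    generalize g.1 0 1 = a
    generalize g.1 0 2 = c
    generalize h.1 1 2 = b'
    generalize h.1 0 1 = a'
    generalize h.1 0 2 = c'
    have k1 := XpowYpow hX hY a b'
    have k2 : Z X Y ^ c * Y ^ b' = Y ^ b' * Z X Y ^ c := ((hY.zpow_zpow b' c)).eq.symm
    have k3 : ∀ m : ℤ, Z X Y ^ m * X ^ a' = X ^ a' * Z X Y ^ m :=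
      fun m => ((hX.zpow_zpow a' m)).eq.symm
    calc Y ^ (b + b') * X ^ (a + a') * Z X Y ^ (c + c' + a * b')
        = Y ^ b * Y ^ b' * X ^ a * (X ^ a' * Z X Y ^ (a * b' + c)) * Z X Y ^ c' := by
          rw [zpow_add, zpow_add, show c + c' + a * b' = (a * b' + c) + c' by ring, zpow_add]
          simp only [mul_assoc]
      _ = Y ^ b * (Y ^ b' * X ^ a * Z X Y ^ (a * b')) * Z X Y ^ c * X ^ a' * Z X Y ^ c' := by
          rw [← k3, zpow_add]
          simp only [mul_assoc]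
      _ = Y ^ b * (X ^ a * Y ^ b') * Z X Y ^ c * X ^ a' * Z X Y ^ c' := by rw [← k1]
      _ = Y ^ b * X ^ a * (Y ^ b' * Z X Y ^ c) * X ^ a' * Z X Y ^ c' := by
          simp only [mul_assoc]
      _ = Y ^ b * X ^ a * (Z X Y ^ c * Y ^ b') * X ^ a' * Z X Y ^ c' := by rw [← k2]
      _ = _ := by simp only [mul_assoc]

end

end Pool.Agent.W718.Heis
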