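import Mathlib
import Pool.Agent.W718.Heis

namespace Pool.Agent.W718.Shift

/-- Configurations on `ℤ^d` over the alphabet with `k` letters. -/
def Conf (d k : ℕ) : Type := (Fin d → ℤ) → Fin k

/-- The product topology. -/
instance (d k : ℕ) : TopologicalSpace (Conf d k) :=
  inferInstanceAs (TopologicalSpace ((Fin d → ℤ) → Fin k))

/-- The translation `(σ^u x)(v) = x (u + v)`. -/
def shift {d k : ℕ} (u : Fin d → ℤ) (x : Conf d k) : Conf d k :=
  fun v => x (u + v)

/-- A subshift of dimension `d` over the alphabet with `k` letters: a nonempty closed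
translation invariant set of configurations. -/
structure Subshift (d k : ℕ) where
  carrier : Set (Conf d k)
  nonempty : carrier.Nonempty
  isClosed : IsClosed carrier
  shift_mem : ∀ u, ∀ x ∈ carrier, shift u x ∈ carrier

/-- The points of a subshift. -/
def Pt {d k : ℕ} (X : Subshift d k) : Type := {x : Conf d k // x ∈ X.carrier}

/-- The subspace topology. -/
instance {d k : ℕ} (X : Subshift d k) : TopologicalSpace (Pt X) :=
  inferInstanceAs (TopologicalSpace {x : Conf d k // x ∈ X.carrier})

/-- The homeomorphisms of a subshift. -/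
abbrev Homeo {d k : ℕ} (X : Subshift d k) : Type := Pt X ≃ₜ Pt X

/-- `φ` commutes with all translations. -/
def IsEquivariant {d k : ℕ} (X : Subshift d k) (φ : Homeo X) : Prop :=
  ∀ (u : Fin d → ℤ) (x y : Pt X), y.1 = shift u x.1 → (φ y).1 = shift u (φ x).1

theorem isEquivariant_mul {d k : ℕ} {X : Subshift d k} {φ ψ : Homeo X}
    (hφ : IsEquivariant X φ) (hψ : IsEquivariant X ψ) : IsEquivariant X (φ * ψ) :=
  fun u x y h => hφ u (ψ x) (ψ y) (hψ u x y h)

theorem isEquivariant_one {d k : ℕ} {X : Subshift d k} : IsEquivariant X 1 :=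
  fun _ _ _ h => h

theorem isEquivariant_inv {d k : ℕ} {X : Subshift d k} {φ : Homeo X}
    (hφ : IsEquivariant X φ) : IsEquivariant X φ⁻¹ := by
  intro u x y h
  have h1 : shift u (φ⁻¹ x).1 ∈ X.carrier := X.shift_mem u _ (φ⁻¹ x).2
  have h2 := hφ u (φ⁻¹ x) ⟨_, h1⟩ rfl
  have h3 : φ (φ⁻¹ x) = x := φ.apply_symm_apply x
  rw [h3, ← h] at h2
  have h4 : φ ⟨_, h1⟩ = y := Subtype.ext h2
  have h5 : φ⁻¹ y = ⟨_, h1⟩ := by
    rw [← h4]
    exact φ.symm_apply_apply _
  rw [h5]

/-- The automorphism group: homeomorphisms that commute with all translations. -/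
def Aut {d k : ℕ} (X : Subshift d k) : Subgroup (Homeo X) where
  carrier := {φ | IsEquivariant X φ}
  one_mem' := isEquivariant_one
  mul_mem' := isEquivariant_mul
  inv_mem' := isEquivariant_inv

/-- The type of automorphisms of a subshift. -/
def AutGroup {d k : ℕ} (X : Subshift d k) : Type := Aut X

/-- The group structure of `Aut X` (composition). -/
instance {d k : ℕ} (X : Subshift d k) : Group (AutGroup X) := inferInstanceAs (Group (Aut X))

/-- The group `G` embeds into the automorphism group of `X`. -/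
def EmbedsInAut (G : Type) [Group G] {d k : ℕ} (X : Subshift d k) : Prop :=
  ∃ Φ : G →* AutGroup X, Function.Injective Φ

section Construction

variable (d R : ℕ)

/-- Pointer symbols: four bounded displacement vectors. -/
abbrev Ptr := Fin 4 → Fin d → Fin (2 * R + 1)

/-- The size of the alphabet. -/
noncomputable def K : ℕ := Fintype.card (Ptr d R × Bool)

/-- Decoding of letters. -/
noncomputable def enc : Fin (K d R) ≃ Ptr d R × Bool := (Fintype.equivFin _).symm

variable {d R}

/-- Follow the pointer `s` at the site `u`. -/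
noncomputable def step (ω : (Fin d → ℤ) → Fin (K d R)) (s : Fin 4) (u : Fin d → ℤ) :
    Fin d → ℤ :=
  fun i => u i + (((enc d R (ω u)).1 s i : ℕ) : ℤ) - R

/-- Follow a word of pointers. -/
noncomputable def walk (ω : (Fin d → ℤ) → Fin (K d R)) :
    List (Fin 4) → (Fin d → ℤ) → (Fin d → ℤ)
  | [], u => u
  | s :: w, u => walk ω w (step ω s u)

/-- The relations: `0, 1` are mutually inverse, `2, 3` are mutually inverse, and the
generators commute with their conjugates under each other. -/
def Rel : List (List (Fin 4) × List (Fin 4)) :=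
  [([0, 1], []), ([1, 0], []), ([2, 3], []), ([3, 2], []),
    ([0, 3, 0, 2], [3, 0, 2, 0]), ([2, 1, 2, 0], [1, 2, 0, 2])]

variable (d R) in
/-- The configurations all of whose pointers satisfy the relations. -/
def PX : Set ((Fin d → ℤ) → Fin (K d R)) :=
  {ω | ∀ r ∈ Rel, ∀ u, walk ω r.1 u = walk ω r.2 u}

theorem step_shift (t : Fin d → ℤ) (ω : (Fin d → ℤ) → Fin (K d R)) (s : Fin 4)
    (u : Fin d → ℤ) : step (shift t ω) s u = step ω s (t + u) - t := by
  funext i
  show u i + (((enc d R (ω (t + u))).1 s i : ℕ) : ℤ) - R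
    = (t i + u i + (((enc d R (ω (t + u))).1 s i : ℕ) : ℤ) - R) - t i
  ring

theorem walk_shift (t : Fin d → ℤ) (ω : (Fin d → ℤ) → Fin (K d R)) (w : List (Fin 4)) :
    ∀ u : Fin d → ℤ, walk (shift t ω) w u = walk ω w (t + u) - t := by
  induction w with
  | nil => intro u; simp [walk]
  | cons s w ih =>
    intro u
    show walk (shift t ω) w (step (shift t ω) s u) = walk ω w (step ω s (t + u)) - t
    rw [ih, step_shift, add_sub_cancel]

theorem PX_shift (t : Fin d → ℤ) (ω : (Fin d → ℤ) → Fin (K d R)) (h : ω ∈ PX d R) :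
    shift t ω ∈ PX d R := by
  intro r hr u
  rw [walk_shift, walk_shift, h r hr]

theorem cont_eval {Y : Type*} [TopologicalSpace Y] {k : ℕ}
    (W : Y → ((Fin d → ℤ) → Fin k)) (hW : Continuous W)
    (U : Y → (Fin d → ℤ)) (hU : Continuous U) : Continuous fun y => W y (U y) := by
  rw [continuous_iff_continuousAt]
  intro y
  have h1 : ∀ᶠ z in nhds y, U z = U y := by
    have : U ⁻¹' {U y} ∈ nhds y := (hU.isOpen_preimage _ (isOpen_discrete _)).mem_nhds rfl
    filter_upwards [this] with z hz using hz
  have h2 : ContinuousAt (fun z => W z (U y)) y :=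
    ((continuous_apply (U y)).comp hW).continuousAt
  refine h2.congr ?_
  filter_upwards [h1] with z hz
  rw [hz]

theorem cont_step (s : Fin 4) (U : ((Fin d → ℤ) → Fin (K d R)) → (Fin d → ℤ))
    (hU : Continuous U) : Continuous fun ω => step ω s (U ω) := by
  have h1 : Continuous fun ω : (Fin d → ℤ) → Fin (K d R) => (ω (U ω), U ω) :=
    (cont_eval _ continuous_id U hU).prodMk hU
  have h2 : Continuous fun p : Fin (K d R) × (Fin d → ℤ) =>
      (fun i => p.2 i + (((enc d R p.1).1 s i : ℕ) : ℤ) - R : Fin d → ℤ) :=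
    continuous_of_discreteTopology
  exact h2.comp h1

theorem cont_walk (w : List (Fin 4)) :
    ∀ (U : ((Fin d → ℤ) → Fin (K d R)) → (Fin d → ℤ)), Continuous U →
      Continuous fun ω => walk ω w (U ω) := by
  induction w with
  | nil => intro U hU; exact hU
  | cons s w ih =>
    intro U hU
    exact ih _ (cont_step s U hU)

theorem PX_closed : IsClosed (PX d R) := by
  have : PX d R = ⋂ r ∈ Rel, ⋂ u : Fin d → ℤ,
      {ω : (Fin d → ℤ) → Fin (K d R) | walk ω r.1 u = walk ω r.2 u} := by
    ext ω
    simp [PX]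
  rw [this]
  refine isClosed_biInter fun r _ => isClosed_iInter fun u => ?_
  exact isClosed_eq (cont_walk r.1 _ continuous_const) (cont_walk r.2 _ continuous_const)

/-- Move the bits along a word of pointers. -/
noncomputable def actW (w : List (Fin 4)) (ω : (Fin d → ℤ) → Fin (K d R)) :
    (Fin d → ℤ) → Fin (K d R) :=
  fun u => (enc d R).symm ((enc d R (ω u)).1, (enc d R (ω (walk ω w u))).2)

theorem step_actW (w : List (Fin 4)) (ω : (Fin d → ℤ) → Fin (K d R)) (s : Fin 4)
    (u : Fin d → ℤ) : step (actW w ω) s u = step ω s u := by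
  funext i
  simp [step, actW]

theorem walk_actW (w : List (Fin 4)) (ω : (Fin d → ℤ) → Fin (K d R)) (v : List (Fin 4)) :
    ∀ u : Fin d → ℤ, walk (actW w ω) v u = walk ω v u := by
  induction v with
  | nil => intro u; rfl
  | cons s v ih =>
    intro u
    show walk (actW w ω) v (step (actW w ω) s u) = walk ω v (step ω s u)
    rw [ih, step_actW]

theorem actW_mem (w : List (Fin 4)) (ω : (Fin d → ℤ) → Fin (K d R)) (h : ω ∈ PX d R) :
    actW w ω ∈ PX d R := by
  intro r hr u
  rw [walk_actW, walk_actW, h r hr]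

theorem actW_nil (ω : (Fin d → ℤ) → Fin (K d R)) : actW [] ω = ω := by
  funext u
  simp [actW, walk]

theorem actW_cons (s : Fin 4) (w : List (Fin 4)) (ω : (Fin d → ℤ) → Fin (K d R)) :
    actW [s] (actW w ω) = actW (s :: w) ω := by
  funext u
  simp only [actW, walk]
  rw [show step (actW w ω) s u = step ω s u from step_actW w ω s u]
  simp

theorem actW_congr (w w' : List (Fin 4)) (ω : (Fin d → ℤ) → Fin (K d R))
    (h : ∀ u, walk ω w u = walk ω w' u) : actW w ω = actW w' ω := by
  funext u
  simp only [actW, h]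

theorem actW_shift (t : Fin d → ℤ) (w : List (Fin 4)) (ω : (Fin d → ℤ) → Fin (K d R)) :
    actW w (shift t ω) = shift t (actW w ω) := by
  funext u
  simp only [actW, shift, walk_shift]
  have : t + (walk ω w (t + u) - t) = walk ω w (t + u) := add_sub_cancel _ _
  rw [this]

theorem actW_cont (w : List (Fin 4)) :
    Continuous (actW w : ((Fin d → ℤ) → Fin (K d R)) → _) := by
  refine continuous_pi fun u => ?_
  have h1 : Continuous fun ω : (Fin d → ℤ) → Fin (K d R) => (ω u, ω (walk ω w u)) :=
    (continuous_apply u).prodMk (cont_eval _ continuous_id _ (cont_walk w _ continuous_const))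
  have h2 : Continuous fun p : Fin (K d R) × Fin (K d R) =>
      (enc d R).symm ((enc d R p.1).1, (enc d R p.2).2) := continuous_of_discreteTopology
  exact h2.comp h1

/-- The basic homeomorphism attached to a pair of mutually inverse pointers. -/
noncomputable def gen (s t : Fin 4) (h1 : ([s, t], []) ∈ Rel) (h2 : ([t, s], []) ∈ Rel) :
    PX d R ≃ₜ PX d R where
  toFun ω := ⟨actW [s] ω.1, actW_mem _ _ ω.2⟩
  invFun ω := ⟨actW [t] ω.1, actW_mem _ _ ω.2⟩
  left_inv := by
    intro ω
    apply Subtype.ext
    show actW [t] (actW [s] ω.1) = ω.1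
    rw [actW_cons, actW_congr _ [] _ (ω.2 _ h2), actW_nil]
  right_inv := by
    intro ω
    apply Subtype.ext
    show actW [s] (actW [t] ω.1) = ω.1
    rw [actW_cons, actW_congr _ [] _ (ω.2 _ h1), actW_nil]
  continuous_toFun := ((actW_cont _).comp continuous_subtype_val).subtype_mk _
  continuous_invFun := ((actW_cont _).comp continuous_subtype_val).subtype_mk _

end Construction

end Pool.Agent.W718.Shift
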