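import Mathlib
import Pool.Agent.W718.Shift

namespace Pool.Agent.W718.Shift

section Model

variable {d R : ℕ}

/-- A pointer field given by four bounded permutations of the lattice, with bits `β`. -/
structure Field (d R : ℕ) where
  X : Equiv.Perm (Fin d → ℤ)
  Y : Equiv.Perm (Fin d → ℤ)
  hX : ∀ u i, |X u i - u i| ≤ R
  hY : ∀ u i, |Y u i - u i| ≤ R
  r1 : Y * X * Y⁻¹ * X = X * Y * X * Y⁻¹
  r2 : X * Y * X⁻¹ * Y = Y * X * Y * X⁻¹

namespace Field

variable (F : Field d R)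

/-- The four permutations. -/
def T : Fin 4 → Equiv.Perm (Fin d → ℤ) := ![F.X, F.X⁻¹, F.Y, F.Y⁻¹]

theorem T_bound (s : Fin 4) (u : Fin d → ℤ) (i : Fin d) : |F.T s u i - u i| ≤ R := by
  fin_cases s
  · exact F.hX u i
  · have := F.hX (F.X⁻¹ u) i
    rw [show F.X (F.X⁻¹ u) = u from F.X.apply_symm_apply u, abs_sub_comm] at this
    exact this
  · exact F.hY u i
  · have := F.hY (F.Y⁻¹ u) i
    rw [show F.Y (F.Y⁻¹ u) = u from F.Y.apply_symm_apply u, abs_sub_comm] at this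
    exact this

/-- The configuration. -/
noncomputable def conf (β : (Fin d → ℤ) → Bool) : (Fin d → ℤ) → Fin (K d R) :=
  fun u => (enc d R).symm (fun s i => ⟨(F.T s u i - u i + R).toNat, by
    have := abs_le.mp (F.T_bound s u i)
    omega⟩, β u)

theorem step_conf (β : (Fin d → ℤ) → Bool) (s : Fin 4) (u : Fin d → ℤ) :
    step (F.conf β) s u = F.T s u := by
  funext i
  simp only [step, conf, Equiv.apply_symm_apply]
  have := abs_le.mp (F.T_bound s u i)
  rw [Int.toNat_of_nonneg (by linarith)]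
  ring

theorem walk_conf_cons (β : (Fin d → ℤ) → Bool) (s : Fin 4) (w : List (Fin 4))
    (u : Fin d → ℤ) : walk (F.conf β) (s :: w) u = walk (F.conf β) w (F.T s u) := by
  show walk (F.conf β) w (step (F.conf β) s u) = _
  rw [step_conf]

theorem conf_mem (β : (Fin d → ℤ) → Bool) : F.conf β ∈ PX d R := by
  have T0 : F.T 0 = F.X := rfl
  have T1 : F.T 1 = F.X⁻¹ := rfl
  have T2 : F.T 2 = F.Y := rfl
  have T3 : F.T 3 = F.Y⁻¹ := rfl
  have h1 : ∀ u, F.Y (F.X (F.Y⁻¹ (F.X u))) = F.X (F.Y (F.X (F.Y⁻¹ u))) := fun u => by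
    have := congrArg (fun p => p u) F.r1
    simpa [Equiv.Perm.mul_apply] using this
  have h2 : ∀ u, F.X (F.Y (F.X⁻¹ (F.Y u))) = F.Y (F.X (F.Y (F.X⁻¹ u))) := fun u => by
    have := congrArg (fun p => p u) F.r2
    simpa [Equiv.Perm.mul_apply] using this
  intro r hr u
  simp only [Rel, List.mem_cons, List.not_mem_nil, or_false] at hr
  rcases hr with rfl | rfl | rfl | rfl | rfl | rfl
  · simp only [walk_conf_cons, T0, T1]
    exact F.X.symm_apply_apply u
  · simp only [walk_conf_cons, T0, T1]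
    exact F.X.apply_symm_apply u
  · simp only [walk_conf_cons, T2, T3]
    exact F.Y.symm_apply_apply u
  · simp only [walk_conf_cons, T2, T3]
    exact F.Y.apply_symm_apply u
  · simp only [walk_conf_cons, T0, T2, T3]
    exact h1 u
  · simp only [walk_conf_cons, T0, T1, T2]
    exact h2 u

theorem actW_conf (β : (Fin d → ℤ) → Bool) (s : Fin 4) :
    actW [s] (F.conf β) = F.conf (β ∘ F.T s) := by
  funext u
  simp only [actW, walk, step_conf]
  simp [conf]

end Field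

/-- The trivial field. -/
def trivialField (d R : ℕ) : Field d R where
  X := 1
  Y := 1
  hX := by simp
  hY := by simp
  r1 := by simp
  r2 := by simp

variable (d R) in
/-- The pointer subshift. -/
noncomputable def PS : Subshift d (K d R) where
  carrier := PX d R
  nonempty := ⟨_, (trivialField d R).conf_mem fun _ => false⟩
  isClosed := PX_closed
  shift_mem := PX_shift

theorem gen_mem (s t : Fin 4) (h1 : ([s, t], []) ∈ Rel) (h2 : ([t, s], []) ∈ Rel) :
    (gen s t h1 h2 : PX d R ≃ₜ PX d R) ∈ Aut (PS d R) := by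
  intro u x y h
  show actW [s] y.1 = shift u (actW [s] x.1)
  rw [h, actW_shift]

variable (d R) in
/-- The first generator. -/
noncomputable def AX : Aut (PS d R) := ⟨gen 0 1 (by simp [Rel]) (by simp [Rel]), gen_mem _ _ _ _⟩

variable (d R) in
/-- The second generator. -/
noncomputable def AY : Aut (PS d R) := ⟨gen 2 3 (by simp [Rel]) (by simp [Rel]), gen_mem _ _ _ _⟩

theorem AX_apply (ω : PX d R) : ((AX d R).1 ω).1 = actW [0] ω.1 := rfl

theorem AXinv_apply (ω : PX d R) : (((AX d R)⁻¹ : Aut (PS d R)).1 ω).1 = actW [1] ω.1 := rfl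

theorem AY_apply (ω : PX d R) : ((AY d R).1 ω).1 = actW [2] ω.1 := rfl

theorem AYinv_apply (ω : PX d R) : (((AY d R)⁻¹ : Aut (PS d R)).1 ω).1 = actW [3] ω.1 := rfl

theorem rel1 : AX d R * ((AY d R)⁻¹ * AX d R * AY d R)
    = ((AY d R)⁻¹ * AX d R * AY d R) * AX d R := by
  apply Subtype.ext
  apply Homeomorph.ext
  intro ω
  apply Subtype.ext
  show actW [0] (actW [3] (actW [0] (actW [2] ω.1)))
    = actW [3] (actW [0] (actW [2] (actW [0] ω.1)))
  simp only [actW_cons]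
  exact actW_congr _ _ _ (ω.2 ([0, 3, 0, 2], [3, 0, 2, 0]) (by simp [Rel]))

theorem rel2 : AY d R * ((AX d R)⁻¹ * AY d R * AX d R)
    = ((AX d R)⁻¹ * AY d R * AX d R) * AY d R := by
  apply Subtype.ext
  apply Homeomorph.ext
  intro ω
  apply Subtype.ext
  show actW [2] (actW [1] (actW [2] (actW [0] ω.1)))
    = actW [1] (actW [2] (actW [0] (actW [2] ω.1)))
  simp only [actW_cons]
  exact actW_congr _ _ _ (ω.2 ([2, 1, 2, 0], [1, 2, 0, 2]) (by simp [Rel]))

variable (d R) in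
/-- The homomorphism from the Heisenberg group. -/
noncomputable def Phi : Heis.Heisenberg →* Aut (PS d R) := Heis.rho rel1 rel2

/-- Pairs of an automorphism and a permutation of sites that act in the same way on the
configurations of a field. -/
def Pairs (F : Field d R) : Subgroup (Aut (PS d R) × (Equiv.Perm (Fin d → ℤ))ᵐᵒᵖ) where
  carrier := {p | ∀ β : (Fin d → ℤ) → Bool,
    (p.1.1 ⟨F.conf β, F.conf_mem β⟩).1 = F.conf (β ∘ p.2.unop)}
  one_mem' := fun _ => rfl
  mul_mem' := by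
    rintro p q hp hq β
    have h1 : q.1.1 ⟨F.conf β, F.conf_mem β⟩ = ⟨F.conf (β ∘ q.2.unop), F.conf_mem _⟩ :=
      Subtype.ext (hq β)
    show (p.1.1 (q.1.1 ⟨F.conf β, F.conf_mem β⟩)).1 = _
    rw [h1, hp (β ∘ q.2.unop)]
    rfl
  inv_mem' := by
    rintro p hp β
    have h1 := hp (β ∘ p.2.unop.symm)
    have h2 : (β ∘ p.2.unop.symm) ∘ p.2.unop = β := by
      funext u
      simp
    rw [h2] at h1
    have h3 : p.1.1 ⟨F.conf (β ∘ p.2.unop.symm), F.conf_mem _⟩ = ⟨F.conf β, F.conf_mem β⟩ :=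
      Subtype.ext h1
    show (p.1.1.symm ⟨F.conf β, F.conf_mem β⟩).1 = F.conf (β ∘ p.2.unop.symm)
    rw [← h3, Homeomorph.symm_apply_apply]

theorem pair_X (F : Field d R) : (AX d R, MulOpposite.op F.X) ∈ Pairs F := fun β =>
  F.actW_conf β 0

theorem pair_Y (F : Field d R) : (AY d R, MulOpposite.op F.Y) ∈ Pairs F := fun β =>
  F.actW_conf β 2

theorem pair_Z (F : Field d R) :
    (Heis.Z (AX d R) (AY d R), MulOpposite.op (F.Y * F.X * F.Y⁻¹ * F.X⁻¹)) ∈ Pairs F := by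
  have h := (Pairs F).mul_mem ((Pairs F).mul_mem ((Pairs F).mul_mem
    ((Pairs F).inv_mem (pair_X F)) ((Pairs F).inv_mem (pair_Y F))) (pair_X F)) (pair_Y F)
  have e : ((AX d R, MulOpposite.op F.X) : Aut (PS d R) × (Equiv.Perm (Fin d → ℤ))ᵐᵒᵖ)⁻¹
      * (AY d R, MulOpposite.op F.Y)⁻¹ * (AX d R, MulOpposite.op F.X)
      * (AY d R, MulOpposite.op F.Y)
      = (Heis.Z (AX d R) (AY d R), MulOpposite.op (F.Y * F.X * F.Y⁻¹ * F.X⁻¹)) := by
    apply Prod.ext
    · rfl
    · show (MulOpposite.op F.X)⁻¹ * (MulOpposite.op F.Y)⁻¹ * MulOpposite.op F.X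
        * MulOpposite.op F.Y = MulOpposite.op (F.Y * F.X * F.Y⁻¹ * F.X⁻¹)
      rw [← MulOpposite.op_inv, ← MulOpposite.op_inv, ← MulOpposite.op_mul,
        ← MulOpposite.op_mul, ← MulOpposite.op_mul]
      congr 1
  rw [e] at h
  exact h

theorem pair_Phi (F : Field d R) (g : Heis.Heisenberg) :
    (Phi d R g, MulOpposite.op ((F.Y * F.X * F.Y⁻¹ * F.X⁻¹) ^ (g.1 0 2)
      * (F.X ^ (g.1 0 1) * F.Y ^ (g.1 1 2)))) ∈ Pairs F := by
  have h := (Pairs F).mul_mem ((Pairs F).mul_mem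
    ((Pairs F).zpow_mem (pair_Y F) (g.1 1 2)) ((Pairs F).zpow_mem (pair_X F) (g.1 0 1)))
    ((Pairs F).zpow_mem (pair_Z F) (g.1 0 2))
  have e : ((AY d R, MulOpposite.op F.Y) : Aut (PS d R) × (Equiv.Perm (Fin d → ℤ))ᵐᵒᵖ)
        ^ (g.1 1 2) * (AX d R, MulOpposite.op F.X) ^ (g.1 0 1)
      * (Heis.Z (AX d R) (AY d R), MulOpposite.op (F.Y * F.X * F.Y⁻¹ * F.X⁻¹)) ^ (g.1 0 2)
      = (Phi d R g, MulOpposite.op ((F.Y * F.X * F.Y⁻¹ * F.X⁻¹) ^ (g.1 0 2)
      * (F.X ^ (g.1 0 1) * F.Y ^ (g.1 1 2)))) := by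
    apply Prod.ext
    · rfl
    · show (MulOpposite.op F.Y) ^ (g.1 1 2) * (MulOpposite.op F.X) ^ (g.1 0 1)
        * (MulOpposite.op (F.Y * F.X * F.Y⁻¹ * F.X⁻¹)) ^ (g.1 0 2) = _
      rw [← MulOpposite.op_zpow, ← MulOpposite.op_zpow, ← MulOpposite.op_zpow,
        ← MulOpposite.op_mul, ← MulOpposite.op_mul]
  rw [e] at h
  exact h

/-- If `Phi g` is trivial, then the site permutation of `g` is trivial for every field. -/
theorem Phi_trivial (F : Field d R) (g : Heis.Heisenberg) (hg : Phi d R g = 1)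
    (u : Fin d → ℤ) : ((F.Y * F.X * F.Y⁻¹ * F.X⁻¹) ^ (g.1 0 2)
      * (F.X ^ (g.1 0 1) * F.Y ^ (g.1 1 2))) u = u := by
  set τ := (F.Y * F.X * F.Y⁻¹ * F.X⁻¹) ^ (g.1 0 2)
      * (F.X ^ (g.1 0 1) * F.Y ^ (g.1 1 2)) with hτ
  classical
  have h := pair_Phi F g (fun v => decide (v = u))
  rw [hg] at h
  have h' : F.conf (fun v => decide (v = u)) = F.conf ((fun v => decide (v = u)) ∘ τ) := h
  have h2 := congrFun h' u
  simp only [Field.conf] at h2
  have h3 := (enc d R).symm.injective h2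
  have h4 := congrArg Prod.snd h3
  simp at h4
  exact h4

end Model

end Pool.Agent.W718.Shift
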