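import Mathlib
import Pool.Agent.W718.Embed
import Pool.Agent.W718.Faithful

namespace Pool.Agent.W718.Shift

set_option linter.unusedSectionVars false

section Model

variable (N : ℕ) [NeZero N]

/-- Right multiplication by the first generator on the quotient of the Heisenberg group. -/
def τx : Equiv.Perm (ℤ × ℤ × ZMod N) where
  toFun p := (p.1 + 1, p.2.1, p.2.2)
  invFun p := (p.1 - 1, p.2.1, p.2.2)
  left_inv p := by simp
  right_inv p := by simp

/-- Right multiplication by the second generator on the quotient of the Heisenberg group. -/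
def τy : Equiv.Perm (ℤ × ℤ × ZMod N) where
  toFun p := (p.1, p.2.1 + 1, p.2.2 + p.1)
  invFun p := (p.1, p.2.1 - 1, p.2.2 - p.1)
  left_inv p := by simp
  right_inv p := by simp

theorem τx_apply (a b : ℤ) (c : ZMod N) : τx N (a, b, c) = (a + 1, b, c) := rfl
theorem τy_apply (a b : ℤ) (c : ZMod N) : τy N (a, b, c) = (a, b + 1, c + a) := rfl
theorem τxi_apply (a b : ℤ) (c : ZMod N) : (τx N)⁻¹ (a, b, c) = (a - 1, b, c) := rfl
theorem τyi_apply (a b : ℤ) (c : ZMod N) : (τy N)⁻¹ (a, b, c) = (a, b - 1, c - a) := rfl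

theorem τ_r1 : τy N * τx N * (τy N)⁻¹ * τx N = τx N * τy N * τx N * (τy N)⁻¹ := by
  apply Equiv.ext
  rintro ⟨a, b, c⟩
  simp only [Equiv.Perm.mul_apply, τx_apply, τy_apply, τyi_apply]
  push_cast
  ext
  · ring
  · ring
  · ring

theorem τ_r2 : τx N * τy N * (τx N)⁻¹ * τy N = τy N * τx N * τy N * (τx N)⁻¹ := by
  apply Equiv.ext
  rintro ⟨a, b, c⟩
  simp only [Equiv.Perm.mul_apply, τx_apply, τy_apply, τxi_apply]
  push_cast
  ext
  · ring
  · ring
  · ring

theorem τx_zpow (n : ℤ) : ∀ (a b : ℤ) (c : ZMod N), (τx N ^ n) (a, b, c) = (a + n, b, c) := by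
  induction n using Int.induction_on with
  | zero => intro a b c; simp
  | succ n ih =>
    intro a b c
    rw [zpow_add_one, Equiv.Perm.mul_apply, τx_apply, ih]
    ext <;> simp; ring
  | pred n ih =>
    intro a b c
    rw [zpow_sub_one, Equiv.Perm.mul_apply, τxi_apply, ih]
    ext <;> simp; ring

theorem τy_zpow (n : ℤ) : ∀ (b : ℤ) (c : ZMod N), (τy N ^ n) (0, b, c) = (0, b + n, c) := by
  induction n using Int.induction_on with
  | zero => intro b c; simp
  | succ n ih =>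
    intro b c
    rw [zpow_add_one, Equiv.Perm.mul_apply, τy_apply, Int.cast_zero, add_zero, ih]
    ext <;> simp; ring
  | pred n ih =>
    intro b c
    rw [zpow_sub_one, Equiv.Perm.mul_apply, τyi_apply, Int.cast_zero, sub_zero, ih]
    ext <;> simp; ring

theorem τz_apply (a b : ℤ) (c : ZMod N) :
    (τy N * τx N * (τy N)⁻¹ * (τx N)⁻¹) (a, b, c) = (a, b, c + 1) := by
  simp only [Equiv.Perm.mul_apply, τx_apply, τy_apply, τxi_apply, τyi_apply]
  push_cast
  ext
  · ring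
  · ring
  · ring

theorem τz_zpow (n : ℤ) : ∀ (a b : ℤ) (c : ZMod N),
    ((τy N * τx N * (τy N)⁻¹ * (τx N)⁻¹) ^ n) (a, b, c) = (a, b, c + n) := by
  have hinv : ∀ (a b : ℤ) (c : ZMod N),
      (τy N * τx N * (τy N)⁻¹ * (τx N)⁻¹)⁻¹ (a, b, c) = (a, b, c - 1) := by
    intro a b c
    rw [Equiv.Perm.inv_eq_iff_eq, τz_apply, sub_add_cancel]
  induction n using Int.induction_on with
  | zero => intro a b c; simp
  | succ n ih =>
    intro a b c
    rw [zpow_add_one, Equiv.Perm.mul_apply, τz_apply, ih]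
    ext <;> simp; ring
  | pred n ih =>
    intro a b c
    rw [zpow_sub_one, Equiv.Perm.mul_apply, hinv, ih]
    ext <;> simp; ring

variable {N} {d R : ℕ} (f : ℤ → ℤ → ℤ → (Fin d → ℤ))
  (hper : ∀ a b c k, f a b (c + N * k) = f a b c)
  (hinj : ∀ a b c a' b' c', f a b c = f a' b' c' → a = a' ∧ b = b' ∧ (N : ℤ) ∣ c' - c)
  (hx : ∀ a b c i, |f (a + 1) b c i - f a b c i| ≤ R)
  (hy : ∀ a b c i, |f a (b + 1) (c + a) i - f a b c i| ≤ R)

/-- The map on the quotient. -/
def fbar (p : ℤ × ℤ × ZMod N) : Fin d → ℤ := f p.1 p.2.1 (p.2.2.val : ℤ)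

include hper in
theorem fbar_cast (a b c : ℤ) : fbar f (a, b, (c : ZMod N)) = f a b c := by
  show f a b (((c : ZMod N).val : ℕ) : ℤ) = f a b c
  rw [ZMod.val_intCast]
  have h := Int.emod_add_mul_ediv c N
  conv_rhs => rw [← h]
  rw [hper]

include hinj in
theorem fbar_inj : Function.Injective (fbar f : ℤ × ℤ × ZMod N → _) := by
  rintro ⟨a, b, c⟩ ⟨a', b', c'⟩ h
  obtain ⟨h1, h2, h3⟩ := hinj _ _ _ _ _ _ h
  have h4 : ((c'.val : ℤ) : ZMod N) = ((c.val : ℤ) : ZMod N) := by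
    rw [← sub_eq_zero, ← Int.cast_sub]
    exact (ZMod.intCast_zmod_eq_zero_iff_dvd _ _).mpr h3
  have h5 : c' = c := by
    simpa using h4
  simp only at h1 h2
  rw [h1, h2, h5]

theorem viaEmb_bound (e : ℤ × ℤ × ZMod N ↪ (Fin d → ℤ)) (τ : Equiv.Perm (ℤ × ℤ × ZMod N))
    (h : ∀ p i, |e (τ p) i - e p i| ≤ (R : ℤ)) (u : Fin d → ℤ) (i : Fin d) :
    |Equiv.Perm.viaEmbeddingHom e τ u i - u i| ≤ (R : ℤ) := by
  by_cases hu : u ∈ Set.range e
  · obtain ⟨p, rfl⟩ := hu
    rw [Equiv.Perm.viaEmbeddingHom_apply, Equiv.Perm.viaEmbedding_apply]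
    exact h p i
  · rw [Equiv.Perm.viaEmbeddingHom_apply, Equiv.Perm.viaEmbedding_apply_of_notMem _ _ _ hu]
    simp

include hper hinj hx hy in
/-- The field of the quotient of the Heisenberg group. -/
theorem exists_field : ∃ F : Field d R, ∃ e : ℤ × ℤ × ZMod N ↪ (Fin d → ℤ),
    F.X = Equiv.Perm.viaEmbeddingHom e (τx N) ∧ F.Y = Equiv.Perm.viaEmbeddingHom e (τy N) := by
  refine ⟨⟨Equiv.Perm.viaEmbeddingHom ⟨fbar f, fbar_inj f hinj⟩ (τx N),
    Equiv.Perm.viaEmbeddingHom ⟨fbar f, fbar_inj f hinj⟩ (τy N), ?_, ?_, ?_, ?_⟩,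
    ⟨fbar f, fbar_inj f hinj⟩, rfl, rfl⟩
  · apply viaEmb_bound
    rintro ⟨a, b, c⟩ i
    exact hx a b _ i
  · apply viaEmb_bound
    rintro ⟨a, b, c⟩ i
    have e1 : (fbar f (τy N (a, b, c))) = f a (b + 1) ((c.val : ℤ) + a) := by
      rw [τy_apply, ← fbar_cast f hper]
      push_cast
      simp
    show |fbar f (τy N (a, b, c)) i - fbar f (a, b, c) i| ≤ (R : ℤ)
    rw [e1]
    exact hy a b _ i
  · rw [← map_inv, ← map_mul, ← map_mul, ← map_mul, τ_r1, map_mul, map_mul, map_mul]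
  · rw [← map_inv, ← map_mul, ← map_mul, ← map_mul, τ_r2, map_mul, map_mul, map_mul]

include hper hinj hx hy in
theorem field_detect (g : Heis.Heisenberg) (hg : Phi d R g = 1) :
    g.1 0 1 = 0 ∧ g.1 1 2 = 0 ∧ (N : ℤ) ∣ g.1 0 2 := by
  obtain ⟨F, e, hFX, hFY⟩ := exists_field f hper hinj hx hy
  have h := Phi_trivial F g hg (e (0, 0, 0))
  rw [hFX, hFY, ← map_inv, ← map_inv, ← map_mul, ← map_mul, ← map_mul, ← map_zpow, ← map_zpow,
    ← map_zpow, ← map_mul, ← map_mul, Equiv.Perm.viaEmbeddingHom_apply,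
    Equiv.Perm.viaEmbedding_apply] at h
  have h2 := e.injective h
  rw [Equiv.Perm.mul_apply, Equiv.Perm.mul_apply, τy_zpow, τx_zpow, τz_zpow] at h2
  simp only [Prod.mk.injEq, zero_add] at h2
  exact ⟨h2.1, h2.2.1, (ZMod.intCast_zmod_eq_zero_iff_dvd _ _).mp h2.2.2⟩

end Model

/-- The homomorphism from the Heisenberg group into the automorphism group of the pointer
subshift of dimension `34` is injective. -/
theorem Phi_injective : Function.Injective (Phi 34 41) := by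
  rw [injective_iff_map_eq_one]
  intro g hg
  obtain ⟨N, hN, f, hper, hinj, hx, hy⟩ := Tri.exists_embed (g.1 0 2).natAbs
  have : NeZero N := ⟨by omega⟩
  obtain ⟨h1, h2, h3⟩ := field_detect (R := 41) f hper hinj (by exact_mod_cast hx)
    (by exact_mod_cast hy) g hg
  have h4 : g.1 0 2 = 0 := by
    apply Int.eq_zero_of_abs_lt_dvd h3
    rw [Int.abs_eq_natAbs]
    exact_mod_cast hN
  exact Heis.eq_one_iff g h1 h2 h4

end Pool.Agent.W718.Shift
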