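import Mathlib
import Pool.Agent.W718.Heis

namespace Pool.Agent.W718.Distort

set_option linter.unreachableTactic false
set_option linter.unusedTactic false
set_option linter.unnecessarySeqFocus false

open Pool.Agent.W718.Heis Filter

/-- Word length of `g` with respect to `S` and the inverses of the elements of `S`. -/
noncomputable def wordLength {G : Type*} [Group G] (S : Finset G) (g : G) : ℕ :=
  sInf {n | ∃ l : List G, l.length = n ∧ (∀ s ∈ l, s ∈ S ∨ s⁻¹ ∈ S) ∧ l.prod = g}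

/-- `g` has infinite order and is distorted with respect to the finite set `S`. -/
def IsDistorted {G : Type*} [Group G] (S : Finset G) (g : G) : Prop :=
  (∀ n : ℕ, 0 < n → g ^ n ≠ 1) ∧
    Tendsto (fun n : ℕ => (wordLength S (g ^ n) : ℝ) / n) atTop (nhds 0)

/-- The matrix with upper entries `a`, `b`, `c`. -/
def mk (a b c : ℤ) : Heisenberg :=
  ⟨⟨!![1, a, c; 0, 1, b; 0, 0, 1], by simp [Matrix.det_fin_three]⟩, by
    constructor
    · intro i
      fin_cases i <;> rfl
    · intro i j hij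
      fin_cases i <;> fin_cases j <;> first
        | exact absurd hij (by decide)
        | rfl⟩

theorem mk01 (a b c : ℤ) : (mk a b c).1 0 1 = a := rfl
theorem mk12 (a b c : ℤ) : (mk a b c).1 1 2 = b := rfl
theorem mk02 (a b c : ℤ) : (mk a b c).1 0 2 = c := rfl

theorem ext_heis (g h : Heisenberg) (h01 : g.1 0 1 = h.1 0 1) (h12 : g.1 1 2 = h.1 1 2)
    (h02 : g.1 0 2 = h.1 0 2) : g = h := by
  apply Subtype.ext
  apply Matrix.SpecialLinearGroup.ext
  intro i j
  fin_cases i <;> fin_cases j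
  · exact (g.2.1 0).trans (h.2.1 0).symm
  · exact h01
  · exact h02
  · exact (g.2.2 1 0 (by decide)).trans (h.2.2 1 0 (by decide)).symm
  · exact (g.2.1 1).trans (h.2.1 1).symm
  · exact h12
  · exact (g.2.2 2 0 (by decide)).trans (h.2.2 2 0 (by decide)).symm
  · exact (g.2.2 2 1 (by decide)).trans (h.2.2 2 1 (by decide)).symm
  · exact (g.2.1 2).trans (h.2.1 2).symm

theorem mk_mul (a b c a' b' c' : ℤ) :
    mk a b c * mk a' b' c' = mk (a + a') (b + b') (c + c' + a * b') := by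
  apply ext_heis
  · rw [mul01, mk01, mk01, mk01]
  · rw [mul12, mk12, mk12, mk12]
  · rw [mul02, mk02, mk02, mk02, mk01, mk12]

theorem mk_zero : mk 0 0 0 = 1 := by
  apply eq_one_iff <;> rfl

theorem mk_inv (a b c : ℤ) : (mk a b c)⁻¹ = mk (-a) (-b) (-c + a * b) := by
  rw [inv_eq_iff_mul_eq_one, mk_mul, ← mk_zero]
  congr 1 <;> ring

theorem x_pow (n : ℕ) : (mk 1 0 0) ^ n = mk n 0 0 := by
  induction n with
  | zero => simp [mk_zero]
  | succ n ih => rw [pow_succ, ih, mk_mul]; push_cast; congr 1 <;> ring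

theorem y_pow (n : ℕ) : (mk 0 1 0) ^ n = mk 0 n 0 := by
  induction n with
  | zero => simp [mk_zero]
  | succ n ih => rw [pow_succ, ih, mk_mul]; push_cast; congr 1 <;> ring

theorem z_pow (n : ℕ) : (mk 0 0 1) ^ n = mk 0 0 n := by
  induction n with
  | zero => simp [mk_zero]
  | succ n ih => rw [pow_succ, ih, mk_mul]; push_cast; congr 1 <;> ring

theorem z_comm (m : ℕ) : (mk 1 0 0) ^ m * (mk 0 1 0) ^ m * ((mk 1 0 0)⁻¹) ^ m
    * ((mk 0 1 0)⁻¹) ^ m = mk 0 0 (m * m) := by
  rw [inv_pow, inv_pow, x_pow, y_pow, mk_inv, mk_inv, mk_mul, mk_mul, mk_mul]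
  congr 1 <;> ring

theorem z_comm_one : (mk 1 0 0) * (mk 0 1 0) * (mk 1 0 0)⁻¹ * (mk 0 1 0)⁻¹ = mk 0 0 1 := by
  have := z_comm 1
  simpa using this

theorem closure_top : Subgroup.closure (({mk 1 0 0, mk 0 1 0} : Set Heisenberg)) = ⊤ := by
  rw [eq_top_iff]
  intro g _
  set H := Subgroup.closure (({mk 1 0 0, mk 0 1 0} : Set Heisenberg)) with hH
  have hx : mk 1 0 0 ∈ H := Subgroup.subset_closure (by simp)
  have hy : mk 0 1 0 ∈ H := Subgroup.subset_closure (by simp)
  have hz : mk 0 0 1 ∈ H := by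
    rw [← z_comm_one]
    exact H.mul_mem (H.mul_mem (H.mul_mem hx hy) (H.inv_mem hx)) (H.inv_mem hy)
  have zx : ∀ n : ℤ, (mk 1 0 0) ^ n = mk n 0 0 := by
    intro n
    obtain ⟨m, rfl | rfl⟩ := n.eq_nat_or_neg
    · rw [zpow_natCast, x_pow]
    · rw [zpow_neg, zpow_natCast, x_pow, mk_inv]; congr 1 <;> ring
  have zy : ∀ n : ℤ, (mk 0 1 0) ^ n = mk 0 n 0 := by
    intro n
    obtain ⟨m, rfl | rfl⟩ := n.eq_nat_or_neg
    · rw [zpow_natCast, y_pow]
    · rw [zpow_neg, zpow_natCast, y_pow, mk_inv]; congr 1 <;> ring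
  have zz : ∀ n : ℤ, (mk 0 0 1) ^ n = mk 0 0 n := by
    intro n
    obtain ⟨m, rfl | rfl⟩ := n.eq_nat_or_neg
    · rw [zpow_natCast, z_pow]
    · rw [zpow_neg, zpow_natCast, z_pow, mk_inv]; congr 1 <;> ring
  have e : g = mk 0 1 0 ^ (g.1 1 2) * mk 1 0 0 ^ (g.1 0 1) * mk 0 0 1 ^ (g.1 0 2) := by
    rw [zx, zy, zz, mk_mul, mk_mul]
    apply ext_heis
    · rw [mk01]; ring
    · rw [mk12]; ring
    · rw [mk02]; ring
  rw [e]
  exact H.mul_mem (H.mul_mem (H.zpow_mem hy _) (H.zpow_mem hx _)) (H.zpow_mem hz _)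

/-- The generating set. -/
noncomputable def gens : Finset Heisenberg := by
  classical
  exact {mk 1 0 0, mk 0 1 0}

theorem mem_gens (g : Heisenberg) : g ∈ gens ↔ g = mk 1 0 0 ∨ g = mk 0 1 0 := by
  classical
  unfold gens
  simp

theorem gens_closure : Subgroup.closure (gens : Set Heisenberg) = ⊤ := by
  rw [← closure_top]
  congr 1
  ext g
  simp [mem_gens]

theorem len_bound (n : ℕ) : wordLength gens (mk 0 0 1 ^ n) ≤ 12 * Nat.sqrt n := by
  set m := Nat.sqrt n with hm
  obtain ⟨r, hr⟩ : ∃ r, n = m * m + r := ⟨n - m * m, by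
    have := Nat.sqrt_le n
    rw [← hm] at this
    omega⟩
  have hr2 : r ≤ 2 * m := by
    have := Nat.sqrt_le_add n
    rw [← hm] at this
    omega
  have hx : ∀ s : Heisenberg, s = mk 1 0 0 → s ∈ gens ∨ s⁻¹ ∈ gens := fun s h =>
    Or.inl ((mem_gens s).mpr (Or.inl h))
  have hy : ∀ s : Heisenberg, s = mk 0 1 0 → s ∈ gens ∨ s⁻¹ ∈ gens := fun s h =>
    Or.inl ((mem_gens s).mpr (Or.inr h))
  have hx' : ∀ s : Heisenberg, s = (mk 1 0 0)⁻¹ → s ∈ gens ∨ s⁻¹ ∈ gens := fun s h =>
    Or.inr ((mem_gens _).mpr (Or.inl (by rw [h, inv_inv])))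
  have hy' : ∀ s : Heisenberg, s = (mk 0 1 0)⁻¹ → s ∈ gens ∨ s⁻¹ ∈ gens := fun s h =>
    Or.inr ((mem_gens _).mpr (Or.inr (by rw [h, inv_inv])))
  let l : List Heisenberg := List.replicate m (mk 1 0 0) ++ List.replicate m (mk 0 1 0)
    ++ List.replicate m (mk 1 0 0)⁻¹ ++ List.replicate m (mk 0 1 0)⁻¹
    ++ (List.replicate r [mk 1 0 0, mk 0 1 0, (mk 1 0 0)⁻¹, (mk 0 1 0)⁻¹]).flatten
  have hlen : l.length = 4 * m + 4 * r := by
    simp only [l, List.length_append, List.length_replicate, List.length_flatten,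
      List.map_replicate, List.sum_replicate, List.length_cons, List.length_nil, smul_eq_mul]
    ring
  have hmem : ∀ s ∈ l, s ∈ gens ∨ s⁻¹ ∈ gens := by
    intro s hs
    simp only [l, List.mem_append, List.mem_flatten, List.mem_replicate] at hs
    rcases hs with (((h | h) | h) | h) | ⟨t, ⟨_, rfl⟩, h⟩
    · exact hx s h.2
    · exact hy s h.2
    · exact hx' s h.2
    · exact hy' s h.2
    · simp only [List.mem_cons, List.not_mem_nil, or_false] at h
      rcases h with h | h | h | h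
      · exact hx s h
      · exact hy s h
      · exact hx' s h
      · exact hy' s h
  have hprod : l.prod = mk 0 0 1 ^ n := by
    have e1 : (List.replicate r [mk 1 0 0, mk 0 1 0, (mk 1 0 0)⁻¹, (mk 0 1 0)⁻¹]).flatten.prod
        = mk 0 0 r := by
      rw [List.prod_flatten, List.map_replicate, List.prod_replicate]
      have : [mk 1 0 0, mk 0 1 0, (mk 1 0 0)⁻¹, (mk 0 1 0)⁻¹].prod = mk 0 0 1 := by
        rw [← z_comm_one]
        simp [mul_assoc]
      rw [this, z_pow]
    simp only [l, List.prod_append, List.prod_replicate]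
    rw [e1, z_comm, mk_mul, z_pow]
    congr 1
    rw [hr]
    push_cast
    ring
  have : wordLength gens (mk 0 0 1 ^ n) ≤ 4 * m + 4 * r :=
    Nat.sInf_le ⟨l, hlen, hmem, hprod⟩
  omega

theorem z_distorted : IsDistorted gens (mk 0 0 1) := by
  constructor
  · intro n hn h
    rw [z_pow, ← mk_zero] at h
    have := congrArg (fun g : Heisenberg => g.1 0 2) h
    simp only [mk02] at this
    omega
  · have h1 : ∀ n : ℕ, (wordLength gens (mk 0 0 1 ^ n) : ℝ) / n ≤ 12 / Real.sqrt n := by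
      intro n
      rcases Nat.eq_zero_or_pos n with rfl | hn
      · simp
      have hn' : (0 : ℝ) < n := by exact_mod_cast hn
      have hs : 0 < Real.sqrt n := Real.sqrt_pos.mpr hn'
      rw [div_le_div_iff₀ hn' hs]
      have h2 : (wordLength gens (mk 0 0 1 ^ n) : ℝ) ≤ 12 * Real.sqrt n := by
        have := len_bound n
        have h3 : ((Nat.sqrt n : ℕ) : ℝ) ≤ Real.sqrt n := Real.nat_sqrt_le_real_sqrt
        have h4 : (wordLength gens (mk 0 0 1 ^ n) : ℝ) ≤ 12 * (Nat.sqrt n : ℕ) := by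
          exact_mod_cast this
        linarith
      calc (wordLength gens (mk 0 0 1 ^ n) : ℝ) * Real.sqrt n
          ≤ 12 * Real.sqrt n * Real.sqrt n := by gcongr
        _ = 12 * n := by rw [mul_assoc, Real.mul_self_sqrt hn'.le]
    have h2 : Tendsto (fun n : ℕ => 12 / Real.sqrt (n : ℝ)) atTop (nhds 0) :=
      Tendsto.div_atTop tendsto_const_nhds
        (Real.tendsto_sqrt_atTop.comp tendsto_natCast_atTop_atTop)
    exact squeeze_zero (fun n => by positivity) h1 h2

end Pool.Agent.W718.Distort
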